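import Pool.Agent.H82.Grace.Local

/-!
The labelling and the combinatorial core: no graceful system of boundary triangles exists.
-/

set_option autoImplicit false

namespace Pool.Agent.H82.Grace

/-- residue of the low labels of region p -/
def bet (t p : ℕ) : ℕ := (2 * (p / t) + (t * t - 1) * (t * (p % t))) % (t * t)

/-- residue of the high labels of region p -/
def eta (t p : ℕ) : ℕ := ((t * t - 1) * (p / t) + 2 * (t * (p % t))) % (t * t)

/-- level of the label at position x -/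
def lv (R x : ℕ) : ℕ :=
  if x % 2 = 0 then XN ((x % (40 * R)) / 2) else 40 * R - 1 - YN ((x % (40 * R)) / 2)

/-- residue of the label at position x -/
def res (t R x : ℕ) : ℕ := if x % 2 = 0 then bet t (x / (40 * R)) else eta t (x / (40 * R))

/-- the label (from 0 to n - 1) at position x -/
def lab (t R x : ℕ) : ℕ := (t * t) * lv R x + res t R x

theorem bet_lt {t : ℕ} (ht : 0 < t) (p : ℕ) : bet t p < t * t := Nat.mod_lt _ (Nat.mul_pos ht ht)
theorem eta_lt {t : ℕ} (ht : 0 < t) (p : ℕ) : eta t p < t * t := Nat.mod_lt _ (Nat.mul_pos ht ht)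

theorem res_lt {t : ℕ} (ht : 0 < t) (R x : ℕ) : res t R x < t * t := by
  unfold res; split_ifs
  · exact bet_lt ht _
  · exact eta_lt ht _

theorem XN_lt {R q : ℕ} (h : q < 20 * R) : XN q < 20 * R := by
  have := XN_eq q
  unfold XZ at this
  split_ifs at this <;> omega

theorem YN_lt {R q : ℕ} (h : q < 20 * R) : YN q < 20 * R := by
  have := YN_eq q
  unfold YZ at this
  split_ifs at this <;> omega

theorem XN_inj {q q' : ℕ} (h : XN q = XN q') : q = q' := by
  have h1 := XN_eq q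
  have h2 := XN_eq q'
  unfold XZ at h1 h2
  split_ifs at h1 h2 <;> omega

theorem YN_inj {q q' : ℕ} (h : YN q = YN q') : q = q' := by
  have h1 := YN_eq q
  have h2 := YN_eq q'
  unfold YZ at h1 h2
  split_ifs at h1 h2 <;> omega

theorem lv_lt {R : ℕ} (hR : 0 < R) (x : ℕ) : lv R x < 40 * R := by
  unfold lv
  have h1 : x % (40 * R) < 40 * R := Nat.mod_lt _ (by omega)
  have h2 : (x % (40 * R)) / 2 < 20 * R := by omega
  have := XN_lt h2
  split_ifs <;> omega

theorem lv_even {R : ℕ} (hR : 0 < R) {x : ℕ} (h : x % 2 = 0) : lv R x < 20 * R := by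
  unfold lv
  have h1 : x % (40 * R) < 40 * R := Nat.mod_lt _ (by omega)
  have h2 : (x % (40 * R)) / 2 < 20 * R := by omega
  have := XN_lt h2
  rw [if_pos h]; exact this

theorem lv_odd {R : ℕ} (hR : 0 < R) {x : ℕ} (h : ¬ x % 2 = 0) : 20 * R ≤ lv R x := by
  unfold lv
  have h1 : x % (40 * R) < 40 * R := Nat.mod_lt _ (by omega)
  have h2 : (x % (40 * R)) / 2 < 20 * R := by omega
  have := YN_lt h2
  rw [if_neg h]; omega

theorem lab_lt {t R : ℕ} (ht : 0 < t) (hR : 0 < R) (x : ℕ) : lab t R x < 40 * R * (t * t) := by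
  unfold lab
  have h1 := lv_lt hR x
  have h2 := res_lt ht R x
  have h3 : (t * t) * lv R x ≤ (t * t) * (40 * R - 1) := Nat.mul_le_mul_left _ (by omega)
  have h4 : (t * t) * (40 * R - 1) + t * t = 40 * R * (t * t) := by
    rw [← Nat.mul_succ, show (40 * R - 1).succ = 40 * R by omega, Nat.mul_comm]
  omega

/-- the level in terms of the signed level -/
theorem lv_uZ {R : ℕ} (hR : 0 < R) (x : ℕ) :
    (lv R x : ℤ) = uZ x + (if x % 2 = 0 then - (20 * R * (x / (40 * R) : ℕ) : ℤ)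
      else 40 * R - 1 + (20 * R * (x / (40 * R) : ℕ) : ℤ)) := by
  have h1 : x % (40 * R) < 40 * R := Nat.mod_lt _ (by omega)
  have h2 : (x % (40 * R)) / 2 < 20 * R := by omega
  have hx : (x : ℤ) = ((x % (40 * R) : ℕ) : ℤ) + 20 * (2 * R * (x / (40 * R) : ℕ)) := by
    have := Nat.mod_add_div x (40 * R)
    have h3 : ((x % (40 * R) + 40 * R * (x / (40 * R)) : ℕ) : ℤ) = x := by rw [this]
    push_cast at h3 ⊢
    linarith
  have hs := uZ_shift ((x % (40 * R) : ℕ) : ℤ) (2 * R * (x / (40 * R) : ℕ))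
  rw [← hx] at hs
  have hpar : (x % (40 * R)) % 2 = x % 2 := by
    rw [show 40 * R = 2 * (20 * R) by ring, Nat.mod_mul_right_mod]
  unfold lv
  by_cases h : x % 2 = 0
  · have h' : ((x % (40 * R) : ℕ) : ℤ) % 2 = 0 := by omega
    rw [if_pos h, if_pos h, hs, if_pos h', XN_eq]
    have : uZ ((x % (40 * R) : ℕ) : ℤ) = XZ (((x % (40 * R)) / 2 : ℕ) : ℤ) := by
      unfold uZ; rw [if_pos h']; norm_num
    rw [this]
    ring
  · have h' : ¬ ((x % (40 * R) : ℕ) : ℤ) % 2 = 0 := by omega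
    rw [if_neg h, if_neg h, hs, if_neg h']
    have : uZ ((x % (40 * R) : ℕ) : ℤ) = - YZ (((x % (40 * R)) / 2 : ℕ) : ℤ) := by
      unfold uZ; rw [if_neg h']; norm_num
    rw [this, ← YN_eq]
    have h3 := YN_lt h2
    have h4 : ((40 * R - 1 - YN ((x % (40 * R)) / 2) : ℕ) : ℤ) = 40 * R - 1 - YN ((x % (40 * R)) / 2) := by
      omega
    rw [h4]
    ring

/-- the sum of the two labels of an edge inside a region -/
theorem edge_sum {t R : ℕ} (hR : 0 < R) (x : ℕ) (hx : (x + 1) / (40 * R) = x / (40 * R)) :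
    (lab t R x : ℤ) + lab t R (x + 1) =
      (t * t : ℕ) * (uZ x + uZ (x + 1) + 40 * R - 1) + bet t (x / (40 * R)) + eta t (x / (40 * R)) := by
  have h1 := lv_uZ hR x
  have h2 := lv_uZ hR (x + 1)
  unfold lab res
  rw [hx] at h2 ⊢
  generalize x / (40 * R) = P at h1 h2 ⊢
  push_cast at h1 h2 ⊢
  rw [h1, h2]
  by_cases h : x % 2 = 0
  · have h' : ¬ (x + 1) % 2 = 0 := by omega
    rw [if_pos h, if_neg h', if_pos h, if_neg h']
    ring
  · have h' : (x + 1) % 2 = 0 := by omega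
    rw [if_neg h, if_pos h', if_neg h, if_pos h']
    ring

theorem lab_uZ {t R : ℕ} (hR : 0 < R) (z z' : ℕ) (h : z / (40 * R) = z' / (40 * R))
    (hp : z % 2 = z' % 2) :
    (lab t R z : ℤ) - lab t R z' = (t * t : ℕ) * (uZ z - uZ z') := by
  have h1 := lv_uZ hR z
  have h2 := lv_uZ hR z'
  unfold lab res
  rw [h, hp] at h1 ⊢
  generalize z' / (40 * R) = P at h1 h2 ⊢
  push_cast at h1 h2 ⊢
  rw [h1, h2]
  ring

/-- equal signed levels give equal weights -/
theorem weight_eq {t R : ℕ} (hR : 0 < R) (x x' z z' : ℕ) (hx : (x + 1) / (40 * R) = x / (40 * R))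
    (hx' : (x' + 1) / (40 * R) = x' / (40 * R)) (hxx : x / (40 * R) = x' / (40 * R))
    (hz : z / (40 * R) = z' / (40 * R)) (hp : z % 2 = z' % 2)
    (h : uZ x + uZ (x + 1) + uZ z = uZ x' + uZ (x' + 1) + uZ z') :
    lab t R x + lab t R (x + 1) + lab t R z = lab t R x' + lab t R (x' + 1) + lab t R z' := by
  have h1 := edge_sum (t := t) hR x hx
  have h2 := edge_sum (t := t) hR x' hx'
  have h3 := lab_uZ (t := t) hR z z' hz hp
  have : (lab t R x : ℤ) + lab t R (x + 1) + lab t R z = lab t R x' + lab t R (x' + 1) + lab t R z' := by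
    rw [h1, h2, hxx]
    have h4 : (uZ x + uZ (x + 1)) - (uZ x' + uZ (x' + 1)) = uZ z' - uZ z := by linarith
    have h5 : ((t * t : ℕ) : ℤ) * (uZ x + uZ (x + 1) + 40 * R - 1) -
        (t * t : ℕ) * (uZ x' + uZ (x' + 1) + 40 * R - 1) = (t * t : ℕ) * (uZ z' - uZ z) := by
      rw [← h4]; ring
    have h6 : ((t * t : ℕ) : ℤ) * (uZ z - uZ z') = - ((t * t : ℕ) * (uZ z' - uZ z)) := by ring
    rw [h6] at h3
    linarith
  exact_mod_cast this

theorem mod_low {t : ℕ} (ht : 0 < t) (p : ℕ) :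
    (bet t p + eta t p + bet t p) % (t * t) = (3 * (p / t)) % (t * t) := by
  obtain ⟨s, hs⟩ : ∃ s, t * t = s + 1 := ⟨t * t - 1, by have := Nat.mul_pos ht ht; omega⟩
  have h1 : bet t p ≡ 2 * (p / t) + (t * t - 1) * (t * (p % t)) [MOD t * t] := Nat.mod_modEq _ _
  have h2 : eta t p ≡ (t * t - 1) * (p / t) + 2 * (t * (p % t)) [MOD t * t] := Nat.mod_modEq _ _
  have h3 := (h1.add h2).add h1
  have h4 : 2 * (p / t) + (t * t - 1) * (t * (p % t)) + ((t * t - 1) * (p / t) + 2 * (t * (p % t))) +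
      (2 * (p / t) + (t * t - 1) * (t * (p % t))) = 3 * (p / t) + (t * t) * ((p / t) + 2 * (t * (p % t))) := by
    rw [hs, Nat.add_sub_cancel]; ring
  rw [h4] at h3
  have h5 : 3 * (p / t) + (t * t) * ((p / t) + 2 * (t * (p % t))) ≡ 3 * (p / t) [MOD t * t] := by
    unfold Nat.ModEq
    rw [Nat.add_mul_mod_self_left]
  exact h3.trans h5

theorem mod_high {t : ℕ} (ht : 0 < t) (p : ℕ) :
    (bet t p + eta t p + eta t p) % (t * t) = (3 * (t * (p % t))) % (t * t) := by
  obtain ⟨s, hs⟩ : ∃ s, t * t = s + 1 := ⟨t * t - 1, by have := Nat.mul_pos ht ht; omega⟩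
  have h1 : bet t p ≡ 2 * (p / t) + (t * t - 1) * (t * (p % t)) [MOD t * t] := Nat.mod_modEq _ _
  have h2 : eta t p ≡ (t * t - 1) * (p / t) + 2 * (t * (p % t)) [MOD t * t] := Nat.mod_modEq _ _
  have h3 := (h1.add h2).add h2
  have h4 : 2 * (p / t) + (t * t - 1) * (t * (p % t)) + ((t * t - 1) * (p / t) + 2 * (t * (p % t))) +
      ((t * t - 1) * (p / t) + 2 * (t * (p % t))) =
      3 * (t * (p % t)) + (t * t) * (2 * (p / t) + (t * (p % t))) := by
    rw [hs, Nat.add_sub_cancel]; ring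
  rw [h4] at h3
  have h5 : 3 * (t * (p % t)) + (t * t) * (2 * (p / t) + (t * (p % t))) ≡ 3 * (t * (p % t)) [MOD t * t] := by
    unfold Nat.ModEq
    rw [Nat.add_mul_mod_self_left]
  exact h3.trans h5

/-- the triangle at the edge x -/
def tri (h : ℕ → ℕ) (x : ℕ) : Finset ℕ := {x, x + 1, h x}

theorem mem_tri {h : ℕ → ℕ} {x a : ℕ} : a ∈ tri h x ↔ a = x ∨ a = x + 1 ∨ a = h x := by
  simp [tri]

/-- what a graceful triangulation gives: a hub for every edge, no crossings, distinct weights -/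
structure Hub (t R : ℕ) (h : ℕ → ℕ) : Prop where
  lt : ∀ x, x + 1 < 40 * R * (t * t) → h x < 40 * R * (t * t)
  ne : ∀ x, x + 1 < 40 * R * (t * t) → h x ≠ x ∧ h x ≠ x + 1
  nc : ∀ x x', x + 1 < 40 * R * (t * t) → x' + 1 < 40 * R * (t * t) → ∀ a b c d,
    a ∈ tri h x → c ∈ tri h x → b ∈ tri h x' → d ∈ tri h x' → a < b → b < c → c < d → False
  gr : ∀ x x', x + 1 < 40 * R * (t * t) → x' + 1 < 40 * R * (t * t) →
    lab t R x + lab t R (x + 1) + lab t R (h x) = lab t R x' + lab t R (x' + 1) + lab t R (h x') →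
    tri h x = tri h x'

section

variable {t R : ℕ} {h : ℕ → ℕ}

theorem lt_of_reg {L a b : ℕ} (hab : a / L < b / L) : a < b := by
  by_contra hc
  exact absurd (Nat.div_le_div_right (c := L) (not_lt.mp hc)) (not_le.mpr hab)

theorem mono_hub (H : Hub t R h) {x x' : ℕ} (hx : x + 1 < 40 * R * (t * t))
    (hx' : x' + 1 < 40 * R * (t * t)) (hxx : x < x') (hr : x / (40 * R) = x' / (40 * R))
    (hh : h x / (40 * R) = h x' / (40 * R)) (hne : h x / (40 * R) ≠ x / (40 * R)) : h x' ≤ h x := by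
  by_contra hc
  rw [not_le] at hc
  rcases lt_or_gt_of_ne hne with h1 | h1
  · -- hubs to the left
    have h2 : h x' < x := lt_of_reg (L := 40 * R) (by rw [← hh]; exact h1)
    exact H.nc x x' hx hx' (h x) (h x') x x' (mem_tri.2 (Or.inr (Or.inr rfl))) (mem_tri.2 (Or.inl rfl))
      (mem_tri.2 (Or.inr (Or.inr rfl))) (mem_tri.2 (Or.inl rfl)) hc h2 hxx
  · have h2 : x' < h x := lt_of_reg (L := 40 * R) (by rw [← hr]; exact h1)
    exact H.nc x x' hx hx' x x' (h x) (h x') (mem_tri.2 (Or.inl rfl)) (mem_tri.2 (Or.inr (Or.inr rfl)))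
      (mem_tri.2 (Or.inl rfl)) (mem_tri.2 (Or.inr (Or.inr rfl))) hxx h2 hc

/-- edges facing the common vertex of two consecutive cross edges -/
theorem fan_hub (H : Hub t R h) {x j : ℕ} (hx1 : x + 1 + 1 < 40 * R * (t * t))
    (hj : j + 1 < 40 * R * (t * t))
    (hr : (x + 1) / (40 * R) = x / (40 * R))
    (hh : h (x + 1) / (40 * R) = h x / (40 * R)) (hne : h x / (40 * R) ≠ x / (40 * R))
    (h1 : h (x + 1) ≤ j) (h2 : j < h x) : h j = x + 1 ∨ h j / (40 * R) = h x / (40 * R) := by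
  by_contra hc
  rw [not_or] at hc
  obtain ⟨hc1, hc2⟩ := hc
  have hx0 : x + 1 < 40 * R * (t * t) := by omega
  have m1 : x + 1 ∈ tri h x := mem_tri.2 (Or.inr (Or.inl rfl))
  have m2 : h x ∈ tri h x := mem_tri.2 (Or.inr (Or.inr rfl))
  have m3 : x + 1 ∈ tri h (x + 1) := mem_tri.2 (Or.inl rfl)
  have m4 : h (x + 1) ∈ tri h (x + 1) := mem_tri.2 (Or.inr (Or.inr rfl))
  have m5 : j ∈ tri h j := mem_tri.2 (Or.inl rfl)
  have m6 : j + 1 ∈ tri h j := mem_tri.2 (Or.inr (Or.inl rfl))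
  have m7 : h j ∈ tri h j := mem_tri.2 (Or.inr (Or.inr rfl))
  have hz : h j < h (x + 1) ∨ h x < h j := by
    rcases lt_or_gt_of_ne hc2 with h3 | h3
    · left; exact lt_of_reg (L := 40 * R) (by rw [hh]; exact h3)
    · right; exact lt_of_reg (L := 40 * R) h3
  rcases lt_or_gt_of_ne hne with h3 | h3
  · -- the hub region is to the left
    have h4 : h x < x := lt_of_reg (L := 40 * R) h3
    rcases hz with hz | hz
    · exact H.nc j (x + 1) hj hx1 (h j) (h (x + 1)) (j + 1) (x + 1) m7 m6 m4 m3 hz (by omega) (by omega)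
    · rcases lt_or_gt_of_ne hc1 with h5 | h5
      · exact H.nc j x hj hx0 j (h x) (h j) (x + 1) m5 m7 m2 m1 h2 hz h5
      · exact H.nc (x + 1) j hx1 hj (h (x + 1)) (j + 1) (x + 1) (h j) m4 m3 m6 m7 (by omega) (by omega) h5
  · have h4 : x + 1 < h (x + 1) := lt_of_reg (L := 40 * R) (by rw [hh, hr]; exact h3)
    rcases hz with hz | hz
    · rcases lt_or_gt_of_ne hc1 with h5 | h5
      · exact H.nc j x hj hx0 (h j) (x + 1) j (h x) m7 m5 m1 m2 h5 (by omega) h2
      · exact H.nc (x + 1) j hx1 hj (x + 1) (h j) (h (x + 1)) (j + 1) m3 m4 m7 m6 h5 hz (by omega)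
    · exact H.nc x j hx0 hj (x + 1) j (h x) (h j) m1 m2 m5 m7 (by omega) h2 hz

/-- an edge is seen by at most one vertex of another region -/
theorem seen_unique (H : Hub t R h) {x x' j p : ℕ} (hx : x + 1 + 1 < 40 * R * (t * t))
    (hx' : x' + 1 + 1 < 40 * R * (t * t)) (hxx : x < x')
    (hne : (x + 1) / (40 * R) ≠ p) (hne' : (x' + 1) / (40 * R) ≠ p)
    (e1 : h x / (40 * R) = p) (e2 : h (x + 1) / (40 * R) = p)
    (e1' : h x' / (40 * R) = p) (e2' : h (x' + 1) / (40 * R) = p)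
    (h1 : h (x + 1) ≤ j) (h2 : j < h x) (h1' : h (x' + 1) ≤ j) (h2' : j < h x') : False := by
  have hx0 : x + 1 < 40 * R * (t * t) := by omega
  have hx0' : x' + 1 < 40 * R * (t * t) := by omega
  have m1 : x + 1 ∈ tri h x := mem_tri.2 (Or.inr (Or.inl rfl))
  have m2 : h x ∈ tri h x := mem_tri.2 (Or.inr (Or.inr rfl))
  have m3 : x + 1 ∈ tri h (x + 1) := mem_tri.2 (Or.inl rfl)
  have m4 : h (x + 1) ∈ tri h (x + 1) := mem_tri.2 (Or.inr (Or.inr rfl))
  have n1 : x' + 1 ∈ tri h x' := mem_tri.2 (Or.inr (Or.inl rfl))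
  have n2 : h x' ∈ tri h x' := mem_tri.2 (Or.inr (Or.inr rfl))
  have n3 : x' + 1 ∈ tri h (x' + 1) := mem_tri.2 (Or.inl rfl)
  have n4 : h (x' + 1) ∈ tri h (x' + 1) := mem_tri.2 (Or.inr (Or.inr rfl))
  rcases lt_or_gt_of_ne hne with h3 | h3
  · have a1 : x + 1 < h (x + 1) := lt_of_reg (L := 40 * R) (by rw [e2]; exact h3)
    rcases lt_or_gt_of_ne hne' with h4 | h4
    · have a2 : x' + 1 < h (x + 1) := lt_of_reg (L := 40 * R) (by rw [e2]; exact h4)
      exact H.nc (x + 1) x' hx hx0' (x + 1) (x' + 1) (h (x + 1)) (h x') m3 m4 n1 n2 (by omega) a2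
        (by omega)
    · have a2 : h x < x' + 1 := lt_of_reg (L := 40 * R) (by rw [e1]; exact h4)
      have a3 : x + 1 < h (x' + 1) := lt_of_reg (L := 40 * R) (by rw [e2']; exact h3)
      exact H.nc x (x' + 1) hx0 hx' (x + 1) (h (x' + 1)) (h x) (x' + 1) m1 m2 n4 n3 a3 (by omega) a2
  · have a1 : h x' < x + 1 := lt_of_reg (L := 40 * R) (by rw [e1']; exact h3)
    exact H.nc (x + 1) x' hx hx0' (h (x + 1)) (h x') (x + 1) (x' + 1) m4 m3 n2 n1 (by omega) a1
      (by omega)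

/-- a region has at most one transition from hub region p1 to hub region p2 -/
theorem trans_unique (H : Hub t R h) {x x' p1 p2 : ℕ} (hx : x + 1 + 1 < 40 * R * (t * t))
    (hx' : x' + 1 + 1 < 40 * R * (t * t)) (hxx : x < x')
    (r1 : (x + 1) / (40 * R) = x / (40 * R)) (r2 : x' / (40 * R) = x / (40 * R))
    (n1 : p1 ≠ x / (40 * R)) (n2 : p2 ≠ x / (40 * R)) (n3 : p1 ≠ p2)
    (e1 : h x / (40 * R) = p1) (e2 : h (x + 1) / (40 * R) = p2) (e1' : h x' / (40 * R) = p1) :
    False := by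
  have hx0 : x + 1 < 40 * R * (t * t) := by omega
  have hx0' : x' + 1 < 40 * R * (t * t) := by omega
  have hne : x' ≠ x + 1 := by
    rintro rfl
    exact n3 (by rw [← e1', ← e2])
  have hlt : x + 1 < x' := by omega
  have m0 : x ∈ tri h x := mem_tri.2 (Or.inl rfl)
  have m2 : h x ∈ tri h x := mem_tri.2 (Or.inr (Or.inr rfl))
  have m3 : x + 1 ∈ tri h (x + 1) := mem_tri.2 (Or.inl rfl)
  have m4 : h (x + 1) ∈ tri h (x + 1) := mem_tri.2 (Or.inr (Or.inr rfl))
  have l0 : x' ∈ tri h x' := mem_tri.2 (Or.inl rfl)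
  have l2 : h x' ∈ tri h x' := mem_tri.2 (Or.inr (Or.inr rfl))
  rcases lt_or_gt_of_ne n1 with a | a
  · -- p1 < p
    have b1 : h x' < x + 1 := lt_of_reg (L := 40 * R) (by rw [e1', r1]; exact a)
    have b1' : h x < x := lt_of_reg (L := 40 * R) (by rw [e1]; exact a)
    rcases lt_or_gt_of_ne n2 with b | b
    · -- p2 < p
      have b2 : h (x + 1) < x := lt_of_reg (L := 40 * R) (by rw [e2]; exact b)
      rcases lt_or_gt_of_ne n3 with c | c
      · -- p1 < p2 < p
        have b3 : h x < h (x + 1) := lt_of_reg (L := 40 * R) (by rw [e1, e2]; exact c)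
        exact H.nc x (x + 1) hx0 hx (h x) (h (x + 1)) x (x + 1) m2 m0 m4 m3 b3 b2 (by omega)
      · -- p2 < p1 < p
        have b3 : h (x + 1) < h x' := lt_of_reg (L := 40 * R) (by rw [e1', e2]; exact c)
        exact H.nc (x + 1) x' hx hx0' (h (x + 1)) (h x') (x + 1) x' m4 m3 l2 l0 b3 b1 hlt
    · -- p1 < p < p2
      have b2 : x' < h (x + 1) := lt_of_reg (L := 40 * R) (by rw [e2, r2]; exact b)
      exact H.nc x' (x + 1) hx0' hx (h x') (x + 1) x' (h (x + 1)) l2 l0 m3 m4 b1 hlt b2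
  · -- p < p1
    have b1 : x' < h x := lt_of_reg (L := 40 * R) (by rw [e1, r2]; exact a)
    have b1' : x' < h x' := lt_of_reg (L := 40 * R) (by rw [e1', r2]; exact a)
    rcases lt_or_gt_of_ne n2 with b | b
    · -- p2 < p < p1
      have b2 : h (x + 1) < x := lt_of_reg (L := 40 * R) (by rw [e2]; exact b)
      exact H.nc (x + 1) x hx hx0 (h (x + 1)) x (x + 1) (h x) m4 m3 m0 m2 b2 (by omega) (by omega)
    · have b2 : x' < h (x + 1) := lt_of_reg (L := 40 * R) (by rw [e2, r2]; exact b)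
      rcases lt_or_gt_of_ne n3 with c | c
      · -- p < p1 < p2
        have b3 : h x < h (x + 1) := lt_of_reg (L := 40 * R) (by rw [e1, e2]; exact c)
        exact H.nc x (x + 1) hx0 hx x (x + 1) (h x) (h (x + 1)) m0 m2 m3 m4 (by omega) (by omega) b3
      · -- p < p2 < p1
        have b3 : h (x + 1) < h x' := lt_of_reg (L := 40 * R) (by rw [e1', e2]; exact c)
        exact H.nc (x + 1) x' hx hx0' (x + 1) x' (h (x + 1)) (h x') m3 m4 l0 l2 hlt b2 b3

end

end Pool.Agent.H82.Grace
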