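import Pool.Agent.H82.Grace.Core

/-!
Counting: few self edges, every block is of one of three types, contradiction.
-/

set_option autoImplicit false

namespace Pool.Agent.H82.Grace

open Finset

/-- the self edges: edges inside a region whose hub lies in the same region -/
def selfs (t R : ℕ) (h : ℕ → ℕ) : Finset ℕ :=
  (range (40 * R * (t * t))).filter
    (fun j => (j + 1) / (40 * R) = j / (40 * R) ∧ h j / (40 * R) = j / (40 * R))

/-- the classes of the weights of the self edges -/
def classes (t : ℕ) : Finset ℕ :=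
  (range t).image (fun a => (3 * a) % (t * t)) ∪ (range t).image (fun b => (3 * (t * b)) % (t * t))

theorem card_classes (t : ℕ) : (classes t).card ≤ 2 * t := by
  unfold classes
  refine (card_union_le _ _).trans ?_
  have h1 : ((range t).image (fun a => (3 * a) % (t * t))).card ≤ t := by
    simpa using card_image_le (s := range t) (f := fun a => (3 * a) % (t * t))
  have h2 : ((range t).image (fun b => (3 * (t * b)) % (t * t))).card ≤ t := by
    simpa using card_image_le (s := range t) (f := fun b => (3 * (t * b)) % (t * t))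
  omega

/-- the possible weights of self edges -/
def wts (t R : ℕ) : Finset ℕ :=
  (range (3 * (40 * R * (t * t)))).filter (fun w => w % (t * t) ∈ classes t)

theorem card_wts {t : ℕ} (ht : 0 < t) (R : ℕ) : (wts t R).card ≤ 120 * R * (2 * t) := by
  have hτ : 0 < t * t := Nat.mul_pos ht ht
  have h1 : (wts t R).card ≤ ((range (120 * R)) ×ˢ (classes t)).card := by
    refine card_le_card_of_injOn (fun w => (w / (t * t), w % (t * t))) ?_ ?_
    · intro w hw
      have hw' := mem_filter.1 (mem_coe.1 hw)
      rw [mem_coe, mem_product]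
      refine ⟨?_, hw'.2⟩
      rw [mem_range]
      have := mem_range.1 hw'.1
      rw [Nat.div_lt_iff_lt_mul hτ]
      calc w < 3 * (40 * R * (t * t)) := this
        _ = 120 * R * (t * t) := by ring
    · intro w _ w' _ hww
      simp only [Prod.mk.injEq] at hww
      rw [← Nat.div_add_mod w (t * t), ← Nat.div_add_mod w' (t * t), hww.1, hww.2]
  rw [card_product, card_range] at h1
  exact h1.trans (Nat.mul_le_mul_left _ (card_classes t))

variable {t R : ℕ} {h : ℕ → ℕ}

theorem self_lt (hR : 0 < R) {j : ℕ} (hj : j ∈ selfs t R h) : j + 1 < 40 * R * (t * t) := by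
  have hj' := mem_filter.1 hj
  have h1 := mem_range.1 hj'.1
  have h2 : j / (40 * R) < t * t := by
    rw [Nat.div_lt_iff_lt_mul (by omega), Nat.mul_comm]; exact h1
  rw [← hj'.2.1, Nat.div_lt_iff_lt_mul (by omega), Nat.mul_comm] at h2
  exact h2

theorem card_selfs (ht : 0 < t) (hR : 0 < R) (H : Hub t R h) :
    (selfs t R h).card ≤ 3 * (120 * R * (2 * t)) := by
  have hτ : 0 < t * t := Nat.mul_pos ht ht
  have h1 := card_le_mul_card_image_of_maps_to (s := selfs t R h) (t := wts t R)
    (f := fun x => lab t R x + lab t R (x + 1) + lab t R (h x)) ?_ 3 ?_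
  · exact h1.trans (Nat.mul_le_mul_left _ (card_wts ht R))
  · -- the weights lie in the given classes
    intro x hx
    have hx' := mem_filter.1 hx
    have hlt := mem_range.1 hx'.1
    have hlt1 := self_lt hR hx
    have hp : x / (40 * R) < t * t := by
      rw [Nat.div_lt_iff_lt_mul (by omega), Nat.mul_comm]; exact hlt
    refine mem_filter.2 ⟨?_, ?_⟩
    · rw [mem_range]
      have a1 := lab_lt ht hR x
      have a2 := lab_lt ht hR (x + 1)
      have a3 := lab_lt ht hR (h x)
      omega
    · have e1 : lab t R x + lab t R (x + 1) + lab t R (h x) =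
          (res t R x + res t R (x + 1) + res t R (h x)) +
          (t * t) * (lv R x + lv R (x + 1) + lv R (h x)) := by
        unfold lab; ring
      rw [e1, Nat.add_mul_mod_self_left]
      have e2 : res t R x + res t R (x + 1) = bet t (x / (40 * R)) + eta t (x / (40 * R)) := by
        unfold res
        rw [hx'.2.1]
        by_cases hpar : x % 2 = 0
        · rw [if_pos hpar, if_neg (by omega)]
        · rw [if_neg hpar, if_pos (by omega)]; ring
      rw [e2]
      unfold classes
      rw [mem_union]
      unfold res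
      rw [hx'.2.2]
      by_cases hpar : h x % 2 = 0
      · left
        rw [if_pos hpar, mod_low ht]
        refine mem_image.2 ⟨x / (40 * R) / t, mem_range.2 ?_, rfl⟩
        rw [Nat.div_lt_iff_lt_mul ht]
        exact hp
      · right
        rw [if_neg hpar, mod_high ht]
        exact mem_image.2 ⟨x / (40 * R) % t, mem_range.2 (Nat.mod_lt _ ht), rfl⟩
  · -- at most three edges have the same weight
    intro w _
    rcases ((selfs t R h).filter (fun x => lab t R x + lab t R (x + 1) + lab t R (h x) = w)).eq_empty_or_nonempty with he | ⟨x0, hx0⟩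
    · rw [he]; simp
    · have hx0' := mem_filter.1 hx0
      refine (card_le_card (t := {x0 - 1, x0, x0 + 1}) ?_).trans card_le_three
      intro x hx
      have hx' := mem_filter.1 hx
      have hl0 := self_lt hR hx0'.1
      have hl := self_lt hR hx'.1
      have heq := H.gr x x0 hl hl0 (by rw [hx'.2, hx0'.2])
      have a1 : x ∈ tri h x0 := by rw [← heq]; exact mem_tri.2 (Or.inl rfl)
      have a2 : x + 1 ∈ tri h x0 := by rw [← heq]; exact mem_tri.2 (Or.inr (Or.inl rfl))
      have b1 := mem_tri.1 a1
      have b2 := mem_tri.1 a2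
      simp only [mem_insert, mem_singleton]
      rcases b1 with b1 | b1 | b1
      · right; left; exact b1
      · right; right; exact b1
      · rcases b2 with b2 | b2 | b2
        · left; omega
        · right; left; omega
        · omega

theorem region_block {m r : ℕ} (hr : r < 40) : (40 * m + r) / (40 * R) = m / R := by
  rw [← Nat.div_div_eq_div_mul, show (40 * m + r) / 40 = m by omega]

/-- the block m contains a self edge -/
def T1 (t R : ℕ) (h : ℕ → ℕ) (m : ℕ) : Prop := ∃ k, k < 27 ∧ 40 * m + 9 + k ∈ selfs t R h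

/-- the block m contains a transition -/
def T2 (R : ℕ) (h : ℕ → ℕ) (m : ℕ) : Prop :=
  ∃ k, k < 26 ∧ h (40 * m + 9 + k) / (40 * R) ≠ m / R ∧
    h (40 * m + 9 + k + 1) / (40 * R) ≠ m / R ∧
    h (40 * m + 9 + k) / (40 * R) ≠ h (40 * m + 9 + k + 1) / (40 * R)

/-- a vertex of the block m sees a self edge -/
def T3 (t R : ℕ) (h : ℕ → ℕ) (m : ℕ) : Prop :=
  ∃ k, k < 26 ∧ ∃ j, j ∈ selfs t R h ∧ h (40 * m + 9 + k) / (40 * R) ≠ m / R ∧
    h (40 * m + 9 + k) / (40 * R) = j / (40 * R) ∧
    h (40 * m + 9 + k + 1) / (40 * R) = j / (40 * R) ∧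
    h (40 * m + 9 + k + 1) ≤ j ∧ j < h (40 * m + 9 + k)

noncomputable instance (t R : ℕ) (h : ℕ → ℕ) : DecidablePred (T1 t R h) := Classical.decPred _
noncomputable instance (R : ℕ) (h : ℕ → ℕ) : DecidablePred (T2 R h) := Classical.decPred _
noncomputable instance (t R : ℕ) (h : ℕ → ℕ) : DecidablePred (T3 t R h) := Classical.decPred _

/-- every block is of one of the three types -/
theorem block_types (hR : 0 < R) (H : Hub t R h) {m : ℕ} (hm : m < R * (t * t)) :
    T1 t R h m ∨ T2 R h m ∨ T3 t R h m := by
  by_contra hc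
  rw [not_or, not_or] at hc
  obtain ⟨c1, c2, c3⟩ := hc
  unfold T1 at c1
  unfold T2 at c2
  unfold T3 at c3
  push Not at c1 c2
  have hn : 40 * m + 40 ≤ 40 * R * (t * t) := by
    have h1 : m + 1 ≤ R * (t * t) := hm
    calc 40 * m + 40 = 40 * (m + 1) := by ring
      _ ≤ 40 * (R * (t * t)) := Nat.mul_le_mul_left _ h1
      _ = 40 * R * (t * t) := by ring
  -- regions
  have reg : ∀ k, k < 28 → (40 * m + 9 + k) / (40 * R) = m / R := by
    intro k hk
    rw [show 40 * m + 9 + k = 40 * m + (9 + k) by ring]
    exact region_block (by omega)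
  have cross : ∀ k, k < 27 → h (40 * m + 9 + k) / (40 * R) ≠ m / R := by
    intro k hk heq
    apply c1 k hk
    refine mem_filter.2 ⟨mem_range.2 (by omega), ?_, ?_⟩
    · rw [show 40 * m + 9 + k + 1 = 40 * m + 9 + (k + 1) by ring, reg (k + 1) (by omega),
        reg k (by omega)]
    · rw [heq, reg k (by omega)]
  have step : ∀ k, k < 26 → h (40 * m + 9 + k + 1) / (40 * R) = h (40 * m + 9 + k) / (40 * R) := by
    intro k hk
    exact (c2 k hk (cross k (by omega)) (cross (k + 1) (by omega))).symm
  have same : ∀ k, k < 27 → h (40 * m + 9 + k) / (40 * R) = h (40 * m + 9) / (40 * R) := by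
    intro k
    induction k with
    | zero => intro _; rfl
    | succ k ih =>
      intro hk
      rw [← ih (by omega)]
      exact step k (by omega)
  have fan : ∀ k, k < 26 → ∀ e, h (40 * m + 9 + k + 1) ≤ e → e < h (40 * m + 9 + k) →
      h e = 40 * m + 9 + k + 1 ∧ e / (40 * R) = h (40 * m + 9) / (40 * R) ∧
      (e + 1) / (40 * R) = h (40 * m + 9) / (40 * R) ∧ e + 1 < 40 * R * (t * t) := by
    intro k hk e he1 he2
    have hlt1 : h (40 * m + 9 + k) < 40 * R * (t * t) := H.lt _ (by omega)
    have r1 : e / (40 * R) = h (40 * m + 9) / (40 * R) := by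
      apply le_antisymm
      · rw [← same k (by omega)]; exact Nat.div_le_div_right he2.le
      · rw [← same k (by omega), ← step k hk]; exact Nat.div_le_div_right he1
    have r2 : (e + 1) / (40 * R) = h (40 * m + 9) / (40 * R) := by
      apply le_antisymm
      · rw [← same k (by omega)]; exact Nat.div_le_div_right he2
      · rw [← r1]; exact Nat.div_le_div_right (by omega)
    refine ⟨?_, r1, r2, by omega⟩
    have hf := fan_hub H (x := 40 * m + 9 + k) (j := e) (by omega) (by omega)
      (by rw [show 40 * m + 9 + k + 1 = 40 * m + 9 + (k + 1) by ring, reg (k + 1) (by omega),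
        reg k (by omega)]) (step k hk) (by rw [reg k (by omega)]; exact cross k (by omega)) he1 he2
    rcases hf with hf | hf
    · exact hf
    · exfalso
      apply c3
      refine ⟨k, hk, e, ?_, cross k (by omega), ?_, ?_, he1, he2⟩
      · refine mem_filter.2 ⟨mem_range.2 (by omega), by rw [r1, r2], ?_⟩
        rw [hf, r1, same k (by omega)]
      · rw [r1, same k (by omega)]
      · rw [r1, step k hk, same k (by omega)]
  -- the local obstruction
  refine local_obstruction (40 * m + 9) (by omega) (fun k => h (40 * m + 9 + k)) ?_ ?_ ?_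
  · intro k hk
    exact mono_hub H (x := 40 * m + 9 + k) (x' := 40 * m + 9 + (k + 1)) (by omega) (by omega)
      (by omega) (by rw [reg k (by omega), reg (k + 1) (by omega)]) (step k hk).symm
      (by rw [reg k (by omega)]; exact cross k (by omega))
  · intro k k' hkk hk' hpar hsum
    have hw := weight_eq (t := t) hR (40 * m + 9 + k) (40 * m + 9 + k') (h (40 * m + 9 + k))
      (h (40 * m + 9 + k'))
      (by rw [show 40 * m + 9 + k + 1 = 40 * m + 9 + (k + 1) by ring, reg (k + 1) (by omega),
        reg k (by omega)])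
      (by rw [show 40 * m + 9 + k' + 1 = 40 * m + 9 + (k' + 1) by ring, reg (k' + 1) (by omega),
        reg k' (by omega)])
      (by rw [reg k (by omega), reg k' (by omega)])
      (by rw [same k (by omega), same k' (by omega)]) hpar hsum
    have heq := H.gr _ _ (by omega) (by omega) hw
    have a1 : 40 * m + 9 + k ∈ tri h (40 * m + 9 + k') := by
      rw [← heq]; exact mem_tri.2 (Or.inl rfl)
    rcases mem_tri.1 a1 with b | b | b
    · omega
    · omega
    · have := cross k' (by omega)
      rw [← b, reg k (by omega)] at this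
      exact this rfl
  · intro k k' hk hk' e e' he1 he2 he1' he2' hne hpar hsum
    obtain ⟨f1, f2, f3, f4⟩ := fan k hk e he1 he2
    obtain ⟨g1, g2, g3, g4⟩ := fan k' hk' e' he1' he2'
    have hw := weight_eq (t := t) hR e e' (40 * m + 9 + k + 1) (40 * m + 9 + k' + 1)
      (by rw [f3, f2]) (by rw [g3, g2]) (by rw [f2, g2])
      (by rw [show 40 * m + 9 + k + 1 = 40 * m + 9 + (k + 1) by ring,
        show 40 * m + 9 + k' + 1 = 40 * m + 9 + (k' + 1) by ring, reg (k + 1) (by omega),
        reg (k' + 1) (by omega)]) hpar hsum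
    have heq := H.gr e e' f4 g4 (by rw [f1, g1]; exact hw)
    have hcr := cross 0 (by omega)
    rw [Nat.add_zero] at hcr
    have hX : (40 * m + 9 + k + 1) / (40 * R) = m / R := by
      rw [show 40 * m + 9 + k + 1 = 40 * m + 9 + (k + 1) by ring, reg (k + 1) (by omega)]
    have a1 : h e ∈ tri h e' := by rw [← heq]; exact mem_tri.2 (Or.inr (Or.inr rfl))
    have a2 : e ∈ tri h e' := by rw [← heq]; exact mem_tri.2 (Or.inl rfl)
    have a3 : e + 1 ∈ tri h e' := by rw [← heq]; exact mem_tri.2 (Or.inr (Or.inl rfl))
    rw [f1] at a1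
    have hk2 : k = k' := by
      rcases mem_tri.1 a1 with b | b | b
      · exfalso; rw [b, g2] at hX; exact hcr hX
      · exfalso; rw [b, g3] at hX; exact hcr hX
      · rw [g1] at b; omega
    have hX' : h e' / (40 * R) = m / R := by
      rw [g1, show 40 * m + 9 + k' + 1 = 40 * m + 9 + (k' + 1) by ring, reg (k' + 1) (by omega)]
    have he3 : e = e' := by
      rcases mem_tri.1 a2 with b | b | b
      · exact b
      · rcases mem_tri.1 a3 with b' | b' | b'
        · omega
        · omega
        · exfalso; rw [← b', f3] at hX'; exact hcr hX'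
      · exfalso; rw [← b, f2] at hX'; exact hcr hX'
    exact hne (by rw [hk2, he3])

theorem count_blocks (ht : 0 < t) (hR : 0 < R) (H : Hub t R h) :
    R * (t * t) ≤ 2 * (3 * (120 * R * (2 * t))) + (t * t) * ((t * t) * (t * t)) := by
  set N := R * (t * t) with hN
  have hn : ∀ m, m < N → 40 * m + 40 ≤ 40 * R * (t * t) := by
    intro m hm
    have h1 : m + 1 ≤ R * (t * t) := hm
    calc 40 * m + 40 = 40 * (m + 1) := by ring
      _ ≤ 40 * (R * (t * t)) := Nat.mul_le_mul_left _ h1
      _ = 40 * R * (t * t) := by ring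
  set A1 := (range N).filter (T1 t R h) with hA1
  set A2 := (range N).filter (T2 R h) with hA2
  set A3 := (range N).filter (T3 t R h) with hA3
  have hcov : range N ⊆ A1 ∪ (A2 ∪ A3) := by
    intro m hm
    have := block_types hR H (mem_range.1 hm)
    rw [mem_union, mem_union]
    rcases this with h1 | h1 | h1
    · left; exact mem_filter.2 ⟨hm, h1⟩
    · right; left; exact mem_filter.2 ⟨hm, h1⟩
    · right; right; exact mem_filter.2 ⟨hm, h1⟩
  have hreg : ∀ m k, k < 28 → (40 * m + 9 + k) / (40 * R) = m / R := by
    intro m k hk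
    rw [show 40 * m + 9 + k = 40 * m + (9 + k) by ring]
    exact region_block (by omega)
  have c1 : A1.card ≤ (selfs t R h).card := by
    have hch : ∀ m, ∃ x, m ∈ A1 → x ∈ selfs t R h ∧ x / 40 = m := by
      intro m
      by_cases hm : m ∈ A1
      · obtain ⟨k, hk, hs⟩ := (mem_filter.1 hm).2
        exact ⟨40 * m + 9 + k, fun _ => ⟨hs, by omega⟩⟩
      · exact ⟨0, fun h => absurd h hm⟩
    choose f hf using hch
    refine card_le_card_of_injOn f (fun m hm => (hf m hm).1) ?_
    intro m hm m' hm' he
    rw [← (hf m hm).2, ← (hf m' hm').2, he]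
  have c3 : A3.card ≤ (selfs t R h).card := by
    have hch : ∀ m, ∃ j, m ∈ A3 → j ∈ selfs t R h ∧ ∃ k, k < 26 ∧
      h (40 * m + 9 + k) / (40 * R) ≠ m / R ∧
      h (40 * m + 9 + k) / (40 * R) = j / (40 * R) ∧
      h (40 * m + 9 + k + 1) / (40 * R) = j / (40 * R) ∧
      h (40 * m + 9 + k + 1) ≤ j ∧ j < h (40 * m + 9 + k) := by
      intro m
      by_cases hm : m ∈ A3
      · obtain ⟨k, hk, j, hj, hs⟩ := (mem_filter.1 hm).2
        exact ⟨j, fun _ => ⟨hj, k, hk, hs⟩⟩
      · exact ⟨0, fun h => absurd h hm⟩
    choose f hf using hch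
    refine card_le_card_of_injOn f (fun m hm => (hf m hm).1) ?_
    -- injectivity by uniqueness of the seeing vertex
    have key : ∀ m m', m ∈ A3 → m' ∈ A3 → f m = f m' → m < m' → False := by
      intro m m' hm hm' he hlt
      obtain ⟨-, k, hk, b1, b2, b3, b4, b5⟩ := hf m hm
      obtain ⟨-, k', hk', b1', b2', b3', b4', b5'⟩ := hf m' hm'
      have hmN := hn m (mem_range.1 (mem_filter.1 hm).1)
      have hmN' := hn m' (mem_range.1 (mem_filter.1 hm').1)
      rw [← he] at b2' b3' b4' b5'
      refine seen_unique H (x := 40 * m + 9 + k) (x' := 40 * m' + 9 + k') (j := f m)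
        (p := f m / (40 * R)) (by omega) (by omega) (by omega) ?_ ?_ b2 b3 b2' b3' b4 b5 b4' b5'
      · rw [show 40 * m + 9 + k + 1 = 40 * m + 9 + (k + 1) by ring, hreg m (k + 1) (by omega), ← b2]
        exact b1.symm
      · rw [show 40 * m' + 9 + k' + 1 = 40 * m' + 9 + (k' + 1) by ring, hreg m' (k' + 1) (by omega), ← b2']
        exact b1'.symm
    intro m hm m' hm' he
    rcases lt_trichotomy m m' with h1 | h1 | h1
    · exact (key m m' hm hm' he h1).elim
    · exact h1
    · exact (key m' m hm' hm he.symm h1).elim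
  have c2 : A2.card ≤ (t * t) * ((t * t) * (t * t)) := by
    have hch : ∀ m, ∃ k, m ∈ A2 → k < 26 ∧ h (40 * m + 9 + k) / (40 * R) ≠ m / R ∧
      h (40 * m + 9 + k + 1) / (40 * R) ≠ m / R ∧
      h (40 * m + 9 + k) / (40 * R) ≠ h (40 * m + 9 + k + 1) / (40 * R) := by
      intro m
      by_cases hm : m ∈ A2
      · obtain ⟨k, hs⟩ := (mem_filter.1 hm).2
        exact ⟨k, fun _ => hs⟩
      · exact ⟨0, fun h => absurd h hm⟩
    choose f hf using hch
    have : A2.card ≤ (range (t * t) ×ˢ (range (t * t) ×ˢ range (t * t))).card := by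
      refine card_le_card_of_injOn (fun m => (m / R, (h (40 * m + 9 + f m) / (40 * R),
        h (40 * m + 9 + f m + 1) / (40 * R)))) ?_ ?_
      · intro m hm
        have hmN := hn m (mem_range.1 (mem_filter.1 hm).1)
        obtain ⟨b0, -⟩ := hf m hm
        have l1 := H.lt (40 * m + 9 + f m) (by omega)
        have l2 := H.lt (40 * m + 9 + f m + 1) (by omega)
        rw [mem_coe, mem_product, mem_product, mem_range, mem_range, mem_range]
        refine ⟨?_, ?_, ?_⟩
        · have := mem_range.1 (mem_filter.1 hm).1
          simp only []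
          rw [Nat.div_lt_iff_lt_mul hR, Nat.mul_comm]; exact this
        · simp only []
          rw [Nat.div_lt_iff_lt_mul (by omega), Nat.mul_comm (t * t)]; exact l1
        · simp only []
          rw [Nat.div_lt_iff_lt_mul (by omega), Nat.mul_comm (t * t)]; exact l2
      · have key : ∀ m m', m ∈ A2 → m' ∈ A2 → m / R = m' / R →
          h (40 * m + 9 + f m) / (40 * R) = h (40 * m' + 9 + f m') / (40 * R) →
          h (40 * m + 9 + f m + 1) / (40 * R) = h (40 * m' + 9 + f m' + 1) / (40 * R) →
          m < m' → False := by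
          intro m m' hm hm' e0 e1 e2 hlt
          have hmN := hn m (mem_range.1 (mem_filter.1 hm).1)
          have hmN' := hn m' (mem_range.1 (mem_filter.1 hm').1)
          obtain ⟨b0, b1, b2, b3⟩ := hf m hm
          obtain ⟨b0', b1', b2', b3'⟩ := hf m' hm'
          refine trans_unique H (x := 40 * m + 9 + f m) (x' := 40 * m' + 9 + f m')
            (p1 := h (40 * m + 9 + f m) / (40 * R)) (p2 := h (40 * m + 9 + f m + 1) / (40 * R))
            (by omega) (by omega) (by omega) ?_ ?_ ?_ ?_ b3 rfl rfl e1.symm
          · rw [show 40 * m + 9 + f m + 1 = 40 * m + 9 + (f m + 1) by ring,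
              hreg m (f m + 1) (by omega), hreg m (f m) (by omega)]
          · rw [hreg m' (f m') (by omega), hreg m (f m) (by omega), e0]
          · rw [hreg m (f m) (by omega)]; exact b1
          · rw [hreg m (f m) (by omega)]; exact b2
        intro m hm m' hm' he
        simp only [Prod.mk.injEq] at he
        rcases lt_trichotomy m m' with h1 | h1 | h1
        · exact (key m m' hm hm' he.1 he.2.1 he.2.2 h1).elim
        · exact h1
        · exact (key m' m hm' hm he.1.symm he.2.1.symm he.2.2.symm h1).elim
    rw [card_product, card_product, card_range] at this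
    exact this
  have hS := card_selfs ht hR H
  have h1 := card_le_card hcov
  rw [card_range] at h1
  have h2 := card_union_le A1 (A2 ∪ A3)
  have h3 := card_union_le A2 A3
  omega

/-- No graceful system of boundary triangles exists for t = 1601 and R = t^6. -/
theorem no_hub (h : ℕ → ℕ) (H : Hub 1601 (1601 ^ 6) h) : False := by
  have := count_blocks (by norm_num) (by norm_num) H
  norm_num at this

end Pool.Agent.H82.Grace
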