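import Mathlib

/-!
Geometry of points on a parabola: convex position, edges, crossing triangles.
-/

set_option autoImplicit false

namespace Pool.Agent.H82.Grace

open Set Filter Topology

/-- the point of the parabola over x -/
noncomputable def pt (x : ℝ) : EuclideanSpace ℝ (Fin 2) := !₂[x, x ^ 2]

@[simp] theorem pt_zero (x : ℝ) : (pt x) 0 = x := by simp [pt]
@[simp] theorem pt_one (x : ℝ) : (pt x) 1 = x ^ 2 := by simp [pt]

/-- the affine functional vanishing at the points over a and b -/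
def ell (a b : ℝ) (P : EuclideanSpace ℝ (Fin 2)) : ℝ := P 1 - (a + b) * P 0 + a * b

theorem ell_pt (a b z : ℝ) : ell a b (pt z) = (z - a) * (z - b) := by
  unfold ell; rw [pt_zero, pt_one]; ring

theorem continuous_ell (a b : ℝ) : Continuous (ell a b) := by
  unfold ell
  fun_prop

theorem ell_combo (a b : ℝ) (P Q : EuclideanSpace ℝ (Fin 2)) (u v : ℝ) (huv : u + v = 1) :
    ell a b (u • P + v • Q) = u * ell a b P + v * ell a b Q := by
  unfold ell
  simp only [PiLp.add_apply, PiLp.smul_apply, smul_eq_mul]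
  have : v = 1 - u := by linarith
  subst this
  ring

/-- half planes -/
theorem hull_ge (S : Set (EuclideanSpace ℝ (Fin 2))) (a b c : ℝ) (h : ∀ P ∈ S, c ≤ ell a b P) :
    ∀ P ∈ convexHull ℝ S, c ≤ ell a b P := by
  have hc : Convex ℝ {P : EuclideanSpace ℝ (Fin 2) | c ≤ ell a b P} := by
    intro P hP Q hQ u v hu hv huv
    simp only [mem_setOf_eq] at hP hQ ⊢
    rw [ell_combo a b P Q u v huv]
    have h1 := mul_le_mul_of_nonneg_left hP hu
    have h2 := mul_le_mul_of_nonneg_left hQ hv
    have h3 : u * c + v * c = c := by rw [← add_mul, huv, one_mul]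
    linarith
  exact fun P hP => convexHull_min (fun Q hQ => h Q hQ) hc hP

/-- the middle of an edge -/
theorem ell_mid (x : ℝ) : ell x x (midpoint ℝ (pt x) (pt (x + 1))) = 1 / 2 := by
  rw [midpoint_eq_smul_add, smul_add, ell_combo x x _ _ _ _ (by norm_num), ell_pt, ell_pt]
  norm_num

theorem ell_mid' (x : ℝ) : ell (x + 1) (x + 1) (midpoint ℝ (pt x) (pt (x + 1))) = 1 / 2 := by
  rw [midpoint_eq_smul_add, smul_add, ell_combo (x + 1) (x + 1) _ _ _ _ (by norm_num), ell_pt, ell_pt]
  norm_num

/-- three points on the parabola: barycentric coordinates -/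
theorem bary (a b c : ℝ) (hab : a ≠ b) (hac : a ≠ c) (hbc : b ≠ c)
    (P : EuclideanSpace ℝ (Fin 2)) :
    P = (ell b c P / ((a - b) * (a - c))) • pt a + (ell a c P / ((b - a) * (b - c))) • pt b +
      (ell a b P / ((c - a) * (c - b))) • pt c := by
  have h1 : a - b ≠ 0 := sub_ne_zero.2 hab
  have h2 : a - c ≠ 0 := sub_ne_zero.2 hac
  have h3 : b - c ≠ 0 := sub_ne_zero.2 hbc
  have h4 : b - a ≠ 0 := sub_ne_zero.2 hab.symm
  have h5 : c - a ≠ 0 := sub_ne_zero.2 hac.symm
  have h6 : c - b ≠ 0 := sub_ne_zero.2 hbc.symm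
  ext i
  fin_cases i
  · simp only [PiLp.add_apply, PiLp.smul_apply, smul_eq_mul, Fin.zero_eta, Fin.isValue, pt_zero]
    unfold ell
    have e1 : b - a = -(a - b) := by ring
    have e2 : c - a = -(a - c) := by ring
    have e3 : c - b = -(b - c) := by ring
    rw [e1, e2, e3]
    field_simp
    ring
  · simp only [PiLp.add_apply, PiLp.smul_apply, smul_eq_mul, Fin.mk_one, Fin.isValue, pt_one]
    unfold ell
    have e1 : b - a = -(a - b) := by ring
    have e2 : c - a = -(a - c) := by ring
    have e3 : c - b = -(b - c) := by ring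
    rw [e1, e2, e3]
    field_simp
    ring

theorem bary_sum (a b c : ℝ) (hab : a ≠ b) (hac : a ≠ c) (hbc : b ≠ c)
    (P : EuclideanSpace ℝ (Fin 2)) :
    ell b c P / ((a - b) * (a - c)) + ell a c P / ((b - a) * (b - c)) +
      ell a b P / ((c - a) * (c - b)) = 1 := by
  have h1 : a - b ≠ 0 := sub_ne_zero.2 hab
  have h2 : a - c ≠ 0 := sub_ne_zero.2 hac
  have h3 : b - c ≠ 0 := sub_ne_zero.2 hbc
  unfold ell
  have e1 : b - a = -(a - b) := by ring
  have e2 : c - a = -(a - c) := by ring
  have e3 : c - b = -(b - c) := by ring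
  rw [e1, e2, e3]
  field_simp
  ring

/-- a point with positive barycentric coordinates is in the interior -/
theorem mem_int (a b c : ℝ) (hab : a ≠ b) (hac : a ≠ c) (hbc : b ≠ c)
    (S : Set (EuclideanSpace ℝ (Fin 2))) (ha : pt a ∈ S) (hb : pt b ∈ S) (hc : pt c ∈ S)
    (P : EuclideanSpace ℝ (Fin 2)) (h1 : 0 < ell b c P / ((a - b) * (a - c)))
    (h2 : 0 < ell a c P / ((b - a) * (b - c))) (h3 : 0 < ell a b P / ((c - a) * (c - b))) :
    P ∈ interior (convexHull ℝ S) := by
  set O : Set (EuclideanSpace ℝ (Fin 2)) :=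
    {Q | 0 < ell b c Q / ((a - b) * (a - c))} ∩ ({Q | 0 < ell a c Q / ((b - a) * (b - c))} ∩
      {Q | 0 < ell a b Q / ((c - a) * (c - b))}) with hO
  have hopen : IsOpen O := by
    refine IsOpen.inter ?_ (IsOpen.inter ?_ ?_)
    · exact isOpen_lt continuous_const ((continuous_ell b c).div_const _)
    · exact isOpen_lt continuous_const ((continuous_ell a c).div_const _)
    · exact isOpen_lt continuous_const ((continuous_ell a b).div_const _)
  have hsub : O ⊆ convexHull ℝ S := by
    rintro Q ⟨q1, q2, q3⟩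
    simp only [mem_setOf_eq] at q1 q2 q3
    have hs := bary_sum a b c hab hac hbc Q
    have hQ := bary a b c hab hac hbc Q
    have hconv := convex_convexHull ℝ S
    have m := hconv.sum_mem (t := (Finset.univ : Finset (Fin 3)))
      (w := ![ell b c Q / ((a - b) * (a - c)), ell a c Q / ((b - a) * (b - c)),
        ell a b Q / ((c - a) * (c - b))]) (z := ![pt a, pt b, pt c])
      (by intro i _; fin_cases i <;> simp <;> first | exact q1.le | exact q2.le | exact q3.le)
      (by rw [Fin.sum_univ_three]; simpa using hs)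
      (by
        intro i _
        fin_cases i
        · simpa using subset_convexHull ℝ S ha
        · simpa using subset_convexHull ℝ S hb
        · simpa using subset_convexHull ℝ S hc)
    rw [Fin.sum_univ_three] at m
    simp only [Matrix.cons_val_zero, Matrix.cons_val_one, Matrix.cons_val_two, Matrix.head_cons,
      Matrix.tail_cons] at m
    rw [hQ]
    exact m
  exact interior_maximal hsub hopen ⟨h1, h2, h3⟩

theorem small (l c : ℝ) (hl : 0 < l) : ∀ᶠ δ in 𝓝[>] (0 : ℝ), 0 < l + δ * c := by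
  have h : Tendsto (fun δ : ℝ => l + δ * c) (𝓝 0) (𝓝 (l + 0 * c)) := by
    have : Continuous (fun δ : ℝ => l + δ * c) := by fun_prop
    exact this.tendsto 0
  rw [zero_mul, add_zero] at h
  exact (h.eventually (lt_mem_nhds hl)).filter_mono nhdsWithin_le_nhds

/-- two triangles with crossing sides have overlapping interiors -/
theorem crossing (a b c d e f : ℝ) (hab : a < b) (hbc : b < c) (hcd : c < d) (hea : e ≠ a)
    (hec : e ≠ c) (hfb : f ≠ b) (hfd : f ≠ d) (S T : Set (EuclideanSpace ℝ (Fin 2)))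
    (ha : pt a ∈ S) (hc : pt c ∈ S) (he : pt e ∈ S) (hb : pt b ∈ T) (hd : pt d ∈ T)
    (hf : pt f ∈ T) : ¬ Disjoint (interior (convexHull ℝ S)) (interior (convexHull ℝ T)) := by
  -- the crossing point and the direction
  have hD : 0 < (b + d) - (a + c) := by linarith
  set X0 : ℝ := (b * d - a * c) / ((b + d) - (a + c)) with hX0
  have hX0m : X0 * ((b + d) - (a + c)) = b * d - a * c := by
    rw [hX0]; field_simp
  have hXb : b < X0 := by
    rw [hX0, lt_div_iff₀ hD]; nlinarith
  have hXc : X0 < c := by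
    rw [hX0, div_lt_iff₀ hD]; nlinarith
  set Y0 : ℝ := (a + c) * X0 - a * c with hY0
  have hY0' : Y0 = (b + d) * X0 - b * d := by rw [hY0]; linarith
  set E1 : ℝ := (e - a) * (e - c) with hE1
  set E2 : ℝ := (f - b) * (f - d) with hE2
  have hE1n : E1 ≠ 0 := mul_ne_zero (sub_ne_zero.2 hea) (sub_ne_zero.2 hec)
  have hE2n : E2 ≠ 0 := mul_ne_zero (sub_ne_zero.2 hfb) (sub_ne_zero.2 hfd)
  set ξ : ℝ := (E1 - E2) / ((b + d) - (a + c)) with hξ
  have hξm : ξ * ((b + d) - (a + c)) = E1 - E2 := by
    rw [hξ]; field_simp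
  set ζ : ℝ := E1 + (a + c) * ξ with hζ
  have hζ' : ζ = E2 + (b + d) * ξ := by rw [hζ]; linarith
  -- values of the functionals
  have val : ∀ u v δ : ℝ, ell u v (!₂[X0 + δ * ξ, Y0 + δ * ζ]) =
      (Y0 - (u + v) * X0 + u * v) + δ * (ζ - (u + v) * ξ) := by
    intro u v δ
    unfold ell
    simp
    ring
  have v1 := small ((c - X0) / (c - a)) ((ζ - (c + e) * ξ) / ((a - c) * (a - e)))
    (div_pos (by linarith) (by linarith))
  have v2 := small ((X0 - a) / (c - a)) ((ζ - (a + e) * ξ) / ((c - a) * (c - e)))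
    (div_pos (by linarith) (by linarith))
  have v3 := small ((d - X0) / (d - b)) ((ζ - (d + f) * ξ) / ((b - d) * (b - f)))
    (div_pos (by linarith) (by linarith))
  have v4 := small ((X0 - b) / (d - b)) ((ζ - (b + f) * ξ) / ((d - b) * (d - f)))
    (div_pos (by linarith) (by linarith))
  have v5 : ∀ᶠ δ in 𝓝[>] (0 : ℝ), 0 < δ := eventually_mem_nhdsWithin
  obtain ⟨δ, w1, w2, w3, w4, w5⟩ := (v1.and (v2.and (v3.and (v4.and v5)))).exists
  have n1 : a - c ≠ 0 := by linarith
  have n1' : c - a ≠ 0 := by linarith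
  have n2 : a - e ≠ 0 := sub_ne_zero.2 hea.symm
  have n3 : c - e ≠ 0 := sub_ne_zero.2 hec.symm
  have n4 : b - d ≠ 0 := by linarith
  have n4' : d - b ≠ 0 := by linarith
  have n5 : b - f ≠ 0 := sub_ne_zero.2 hfb.symm
  have n6 : d - f ≠ 0 := sub_ne_zero.2 hfd.symm
  have n7 : e - a ≠ 0 := sub_ne_zero.2 hea
  have n8 : e - c ≠ 0 := sub_ne_zero.2 hec
  have n9 : f - b ≠ 0 := sub_ne_zero.2 hfb
  have n10 : f - d ≠ 0 := sub_ne_zero.2 hfd
  intro hdis
  have hP1 : (!₂[X0 + δ * ξ, Y0 + δ * ζ] : EuclideanSpace ℝ (Fin 2)) ∈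
      interior (convexHull ℝ S) := by
    refine mem_int a c e (ne_of_lt (hab.trans hbc)) hea.symm hec.symm S ha hc he _ ?_ ?_ ?_
    · rw [val]
      have : Y0 - (c + e) * X0 + c * e = (a - e) * (X0 - c) := by rw [hY0]; ring
      rw [this]
      convert w1 using 1
      field_simp
      ring
    · rw [val]
      have : Y0 - (a + e) * X0 + a * e = (c - e) * (X0 - a) := by rw [hY0]; ring
      rw [this]
      convert w2 using 1
      field_simp
    · rw [val]
      have h1 : Y0 - (a + c) * X0 + a * c = 0 := by rw [hY0]; ring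
      have h2 : ζ - (a + c) * ξ = E1 := by rw [hζ]; ring
      rw [h1, h2, zero_add, ← hE1, mul_div_assoc, div_self hE1n, mul_one]
      exact w5
  have hP2 : (!₂[X0 + δ * ξ, Y0 + δ * ζ] : EuclideanSpace ℝ (Fin 2)) ∈
      interior (convexHull ℝ T) := by
    refine mem_int b d f (ne_of_lt (hbc.trans hcd)) hfb.symm hfd.symm T hb hd hf _ ?_ ?_ ?_
    · rw [val]
      have : Y0 - (d + f) * X0 + d * f = (b - f) * (X0 - d) := by rw [hY0']; ring
      rw [this]
      convert w3 using 1
      field_simp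
      ring
    · rw [val]
      have : Y0 - (b + f) * X0 + b * f = (d - f) * (X0 - b) := by rw [hY0']; ring
      rw [this]
      convert w4 using 1
      field_simp
    · rw [val]
      have h1 : Y0 - (b + d) * X0 + b * d = 0 := by rw [hY0']; ring
      have h2 : ζ - (b + d) * ξ = E2 := by rw [hζ']; ring
      rw [h1, h2, zero_add, ← hE2, mul_div_assoc, div_self hE2n, mul_one]
      exact w5
  exact Set.disjoint_left.1 hdis hP1 hP2

end Pool.Agent.H82.Grace
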