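import Pool.Agent.H82.Grace.Inj
import Pool.Agent.H82.Grace.Count
import Pool.Agent.H82.Grace.Geom

/-!
From triangulations of a convex polygon to systems of hubs.
-/

set_option autoImplicit false

namespace Pool.Agent.H82.Grace

theorem third {h : ℕ → ℕ} {x : ℕ} (hne : h x ≠ x ∧ h x ≠ x + 1) (a c : ℕ) :
    ∃ e ∈ tri h x, e ≠ a ∧ e ≠ c := by
  by_contra hc
  have hc' : ∀ e ∈ tri h x, ¬ (e ≠ a ∧ e ≠ c) := fun e he h' => hc ⟨e, he, h'⟩
  have h1 := hc' x (mem_tri.2 (Or.inl rfl))
  have h2 := hc' (x + 1) (mem_tri.2 (Or.inr (Or.inl rfl)))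
  have h3 := hc' (h x) (mem_tri.2 (Or.inr (Or.inr rfl)))
  omega

theorem sq_ge_one {x y : ℕ} (h : y ≠ x) : (1 : ℝ) ≤ ((y : ℝ) - x) * ((y : ℝ) - x) := by
  rcases lt_or_gt_of_ne h with h1 | h1
  · have : (y : ℝ) + 1 ≤ x := by exact_mod_cast h1
    nlinarith
  · have : (x : ℝ) + 1 ≤ y := by exact_mod_cast h1
    nlinarith

/-- a polygon all of whose triangulations are not graceful, given that there is no hub system -/
theorem no_graceful (t R : ℕ) (ht : 0 < t) (hodd : IsCoprime (t : ℤ) 2) (hR : 0 < R)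
    (hno : ∀ h : ℕ → ℕ, Hub t R h → False) :
    ¬ (∀ (n : ℕ) (p : Fin n → EuclideanSpace ℝ (Fin 2)),
      3 ≤ n →
      (∀ i : Fin n, p i ∉ convexHull ℝ (p '' {j : Fin n | j ≠ i})) →
      ∃ T : Finset (Finset (Fin n)),
        (∀ t ∈ T, t.card = 3) ∧
        (∀ s ∈ T, ∀ t ∈ T, s ≠ t →
          Disjoint (interior (convexHull ℝ (p '' (s : Set (Fin n)))))
                   (interior (convexHull ℝ (p '' (t : Set (Fin n)))))) ∧
        (⋃ t ∈ T, convexHull ℝ (p '' (t : Set (Fin n)))) = convexHull ℝ (Set.range p) ∧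
        Set.InjOn (fun t : Finset (Fin n) => ∑ i ∈ t, ((i : ℕ) + 1)) (T : Set (Finset (Fin n)))) := by
  intro hall
  obtain ⟨n, hn⟩ : ∃ n, n = 40 * R * (t * t) := ⟨_, rfl⟩
  have hm : 0 < t * t := Nat.mul_pos ht ht
  have hn3 : 3 ≤ n := by rw [hn]; nlinarith [Nat.mul_pos (show 0 < 40 * R by omega) hm]
  have hlab : ∀ x, lab t R x < n := fun x => by rw [hn]; exact lab_lt ht hR x
  have hbij : Function.Bijective (fun x : Fin n => (⟨lab t R x, hlab x⟩ : Fin n)) := by
    apply Finite.injective_iff_bijective.1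
    intro x y hxy
    have h1 : lab t R x = lab t R y := by simpa using congrArg Fin.val hxy
    exact Fin.ext (lab_inj ht hodd hR (by rw [← hn]; exact x.2) (by rw [← hn]; exact y.2) h1)
  set E : Fin n ≃ Fin n := Equiv.ofBijective _ hbij with hE
  have hEval : ∀ x : Fin n, ((E x : Fin n) : ℕ) = lab t R x := fun x => rfl
  set p : Fin n → EuclideanSpace ℝ (Fin 2) := fun i => pt (((E.symm i : Fin n) : ℕ) : ℝ) with hp
  set F : ℕ → Fin n := fun x => E ⟨x % n, Nat.mod_lt _ (by omega)⟩ with hF
  have Fval : ∀ x, x < n → ((F x : Fin n) : ℕ) = lab t R x := by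
    intro x hx
    simp only [hF, hEval, Nat.mod_eq_of_lt hx]
  have Finj : ∀ x y, x < n → y < n → F x = F y → x = y := by
    intro x y hx hy hxy
    have := congrArg Fin.val (E.injective hxy)
    simpa [Nat.mod_eq_of_lt hx, Nat.mod_eq_of_lt hy] using this
  have pF : ∀ x, x < n → p (F x) = pt (x : ℝ) := by
    intro x hx
    simp only [hp, hF, Equiv.symm_apply_apply, Nat.mod_eq_of_lt hx]
  have Fsurj : ∀ i : Fin n, ∃ x, x < n ∧ F x = i := by
    intro i
    refine ⟨(E.symm i : Fin n), (E.symm i).2, ?_⟩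
    have : (⟨((E.symm i : Fin n) : ℕ) % n, Nat.mod_lt _ (by omega)⟩ : Fin n) = E.symm i :=
      Fin.ext (Nat.mod_eq_of_lt (E.symm i).2)
    simp only [hF]
    rw [this, Equiv.apply_symm_apply]
  -- a set not containing a vertex stays away from it
  have away : ∀ (A : Set (Fin n)) (x : ℕ), F x ∉ A → x < n →
      ∀ P ∈ convexHull ℝ (p '' A), 1 ≤ ell (x : ℝ) x P := by
    intro A x hx hxn
    apply hull_ge
    rintro P ⟨i, hi, rfl⟩
    obtain ⟨y, hy, rfl⟩ := Fsurj i
    rw [pF y hy, ell_pt]
    refine sq_ge_one ?_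
    rintro rfl
    exact hx hi
  obtain ⟨T, hcard, hdis, hcov, hinj⟩ := hall n p hn3 (by
    intro i hi
    obtain ⟨x, hx, rfl⟩ := Fsurj i
    have h1 := away {j : Fin n | j ≠ F x} x (by simp) hx _ hi
    rw [pF x hx, ell_pt, sub_self, zero_mul] at h1
    linarith)
  have A : ∀ x, x + 1 < n → ∃ s ∈ T, ∃ z, z < n ∧ z ≠ x ∧ z ≠ x + 1 ∧
      s = ({F x, F (x + 1), F z} : Finset (Fin n)) := by
    intro x hx
    have hx0 : x < n := by omega
    have hM : midpoint ℝ (pt (x : ℝ)) (pt ((x : ℝ) + 1)) ∈ convexHull ℝ (Set.range p) := by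
      refine (convex_convexHull ℝ _).midpoint_mem ?_ ?_
      · rw [← pF x hx0]; exact subset_convexHull ℝ _ (Set.mem_range_self _)
      · have : ((x : ℝ) + 1) = ((x + 1 : ℕ) : ℝ) := by push_cast; ring
        rw [this, ← pF (x + 1) hx]; exact subset_convexHull ℝ _ (Set.mem_range_self _)
    rw [← hcov] at hM
    obtain ⟨s, hs, hMs⟩ := Set.mem_iUnion₂.1 hM
    have m1 : F x ∈ s := by
      by_contra hc
      have := away (s : Set (Fin n)) x (by simpa using hc) hx0 _ hMs
      rw [ell_mid] at this
      linarith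
    have m2 : F (x + 1) ∈ s := by
      by_contra hc
      have := away (s : Set (Fin n)) (x + 1) (by simpa using hc) hx _ hMs
      have e : ((x + 1 : ℕ) : ℝ) = (x : ℝ) + 1 := by push_cast; ring
      rw [e, ell_mid'] at this
      linarith
    have hne : F x ≠ F (x + 1) := fun h => by have := Finj _ _ hx0 hx h; omega
    have hsub : ({F x, F (x + 1)} : Finset (Fin n)) ⊆ s := by
      intro i hi
      rw [Finset.mem_insert, Finset.mem_singleton] at hi
      rcases hi with rfl | rfl
      · exact m1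
      · exact m2
    have hc2 : ({F x, F (x + 1)} : Finset (Fin n)).card = 2 := Finset.card_pair hne
    have hlt : ({F x, F (x + 1)} : Finset (Fin n)).card < s.card := by rw [hc2, hcard s hs]; norm_num
    obtain ⟨w, hw, hw'⟩ := Finset.exists_mem_notMem_of_card_lt_card hlt
    obtain ⟨z, hz, rfl⟩ := Fsurj w
    rw [Finset.mem_insert, Finset.mem_singleton, not_or] at hw'
    refine ⟨s, hs, z, hz, ?_, ?_, ?_⟩
    · rintro rfl; exact hw'.1 rfl
    · rintro rfl; exact hw'.2 rfl
    · symm
      refine Finset.eq_of_subset_of_card_le ?_ ?_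
      · intro i hi
        rw [Finset.mem_insert, Finset.mem_insert, Finset.mem_singleton] at hi
        rcases hi with rfl | rfl | rfl
        · exact m1
        · exact m2
        · exact hw
      · rw [hcard s hs, Finset.card_eq_three.2 ⟨F x, F (x + 1), F z, hne, fun h => hw'.1 h.symm,
          fun h => hw'.2 h.symm, rfl⟩]
  choose! S hST h hlt hne1 hne2 hS using A
  have memS : ∀ x, x + 1 < n → ∀ a, a ∈ tri h x → F a ∈ S x := by
    intro x hx a ha
    rw [hS x hx, Finset.mem_insert, Finset.mem_insert, Finset.mem_singleton]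
    rcases mem_tri.1 ha with rfl | rfl | rfl
    · exact Or.inl rfl
    · exact Or.inr (Or.inl rfl)
    · exact Or.inr (Or.inr rfl)
  have ltS : ∀ x, x + 1 < n → ∀ a, a ∈ tri h x → a < n := by
    intro x hx a ha
    rcases mem_tri.1 ha with rfl | rfl | rfl
    · omega
    · omega
    · exact hlt x hx
  have memP : ∀ x, x + 1 < n → ∀ a, a ∈ tri h x → pt (a : ℝ) ∈ p '' (S x : Set (Fin n)) := by
    intro x hx a ha
    exact ⟨F a, memS x hx a ha, pF a (ltS x hx a ha)⟩
  refine hno h ⟨?_, ?_, ?_, ?_⟩
  · rw [← hn]; exact hlt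
  · rw [← hn]; exact fun x hx => ⟨hne1 x hx, hne2 x hx⟩
  · rw [← hn]
    intro x x' hx hx' a b c d ha hc hb hd hab hbc hcd
    by_cases hss : S x = S x'
    · have ia := memS x hx a ha
      have ic := memS x hx c hc
      have ib := memS x' hx' b hb
      have id := memS x' hx' d hd
      rw [← hss] at ib id
      have la := ltS x hx a ha
      have lc := ltS x hx c hc
      have lb := ltS x' hx' b hb
      have ld := ltS x' hx' d hd
      have n1 : F a ≠ F b := fun h' => by have := Finj _ _ la lb h'; omega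
      have n2 : F a ≠ F c := fun h' => by have := Finj _ _ la lc h'; omega
      have n3 : F a ≠ F d := fun h' => by have := Finj _ _ la ld h'; omega
      have n4 : F b ≠ F c := fun h' => by have := Finj _ _ lb lc h'; omega
      have n5 : F b ≠ F d := fun h' => by have := Finj _ _ lb ld h'; omega
      have n6 : F c ≠ F d := fun h' => by have := Finj _ _ lc ld h'; omega
      have hsub : ({F a, F b, F c, F d} : Finset (Fin n)) ⊆ S x := by
        intro i hi
        rw [Finset.mem_insert, Finset.mem_insert, Finset.mem_insert, Finset.mem_singleton] at hi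
        rcases hi with rfl | rfl | rfl | rfl
        · exact ia
        · exact ib
        · exact ic
        · exact id
      have hle := Finset.card_le_card hsub
      rw [hcard _ (hST x hx)] at hle
      have h4 : ({F a, F b, F c, F d} : Finset (Fin n)).card = 4 := by
        rw [Finset.card_insert_of_notMem (by simp [n1, n2, n3]),
          Finset.card_insert_of_notMem (by simp [n4, n5]), Finset.card_pair n6]
      omega
    · obtain ⟨e, he, hea, hec⟩ := third (h := h) (x := x) ⟨hne1 x hx, hne2 x hx⟩ a c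
      obtain ⟨f, hf, hfb, hfd⟩ := third (h := h) (x := x') ⟨hne1 x' hx', hne2 x' hx'⟩ b d
      exact crossing (a : ℝ) b c d e f (by exact_mod_cast hab) (by exact_mod_cast hbc)
        (by exact_mod_cast hcd) (by exact_mod_cast hea) (by exact_mod_cast hec)
        (by exact_mod_cast hfb) (by exact_mod_cast hfd) _ _ (memP x hx a ha) (memP x hx c hc)
        (memP x hx e he) (memP x' hx' b hb) (memP x' hx' d hd) (memP x' hx' f hf)
        (hdis _ (hST x hx) _ (hST x' hx') hss)
  · rw [← hn]
    intro x x' hx hx' hw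
    have hsum : ∀ y, y + 1 < n → ∑ i ∈ S y, ((i : ℕ) + 1) =
        lab t R y + lab t R (y + 1) + lab t R (h y) + 3 := by
      intro y hy
      have l0 : y < n := by omega
      have k1 : F y ≠ F (y + 1) := fun h' => by have := Finj _ _ l0 hy h'; omega
      have k2 : F y ≠ F (h y) := fun h' => hne1 y hy (Finj _ _ l0 (hlt y hy) h').symm
      have k3 : F (y + 1) ≠ F (h y) := fun h' => hne2 y hy (Finj _ _ hy (hlt y hy) h').symm
      rw [hS y hy, Finset.sum_insert (by simp [k1, k2]), Finset.sum_pair k3, Fval y l0,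
        Fval (y + 1) hy, Fval (h y) (hlt y hy)]
      ring
    have hSS : S x = S x' := by
      refine hinj (hST x hx) (hST x' hx') ?_
      simp only []
      rw [hsum x hx, hsum x' hx', hw]
    have key : ∀ y y', y + 1 < n → y' + 1 < n → S y = S y' → tri h y ⊆ tri h y' := by
      intro y y' hy hy' e a ha
      have h1 := memS y hy a ha
      have l1 := ltS y hy a ha
      rw [e, hS y' hy', Finset.mem_insert, Finset.mem_insert, Finset.mem_singleton] at h1
      rcases h1 with h1 | h1 | h1
      · exact mem_tri.2 (Or.inl (Finj _ _ l1 (by omega) h1))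
      · exact mem_tri.2 (Or.inr (Or.inl (Finj _ _ l1 hy' h1)))
      · exact mem_tri.2 (Or.inr (Or.inr (Finj _ _ l1 (hlt y' hy') h1)))
    exact Finset.Subset.antisymm (key x x' hx hx' hSS) (key x' x hx' hx hSS.symm)

end Pool.Agent.H82.Grace
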