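import Pool.Agent.H82.Grace.Core

/-!
The labelling is injective.
-/

set_option autoImplicit false

namespace Pool.Agent.H82.Grace

theorem bet_dvd {t : ℕ} (ht : 0 < t) (p : ℕ) :
    ((t : ℤ) * t) ∣ (bet t p : ℤ) - (2 * (p / t : ℕ) - t * (p % t : ℕ)) := by
  unfold bet
  generalize p / t = a
  generalize p % t = b
  obtain ⟨s, hs⟩ : ∃ s, t * t = s + 1 := ⟨t * t - 1, by have := Nat.mul_pos ht ht; omega⟩
  have h := Nat.mod_add_div (2 * a + (t * t - 1) * (t * b)) (t * t)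
  have h2 : (((2 * a + (t * t - 1) * (t * b)) % (t * t) + t * t * ((2 * a + (t * t - 1) * (t * b)) / (t * t)) : ℕ) : ℤ)
      = ((2 * a + (t * t - 1) * (t * b) : ℕ) : ℤ) := by rw [h]
  have hs' : ((t * t - 1 : ℕ) : ℤ) = (t : ℤ) * t - 1 := by
    have h3 : ((t * t : ℕ) : ℤ) = ((s + 1 : ℕ) : ℤ) := by rw [hs]
    have h4 : t * t - 1 = s := by omega
    rw [h4]
    push_cast at h3
    linarith
  generalize (2 * a + (t * t - 1) * (t * b)) % (t * t) = u at h2 ⊢
  generalize (2 * a + (t * t - 1) * (t * b)) / (t * t) = v at h2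
  rw [Nat.cast_add, Nat.cast_add, Nat.cast_mul (t * t - 1), hs'] at h2
  push_cast at h2
  refine ⟨(t * b : ℤ) - v, ?_⟩
  linear_combination h2

theorem eta_dvd {t : ℕ} (ht : 0 < t) (p : ℕ) :
    ((t : ℤ) * t) ∣ (eta t p : ℤ) - (2 * (t * (p % t : ℕ)) - (p / t : ℕ)) := by
  unfold eta
  generalize p / t = a
  generalize p % t = b
  obtain ⟨s, hs⟩ : ∃ s, t * t = s + 1 := ⟨t * t - 1, by have := Nat.mul_pos ht ht; omega⟩
  have h := Nat.mod_add_div ((t * t - 1) * a + 2 * (t * b)) (t * t)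
  have h2 : ((((t * t - 1) * a + 2 * (t * b)) % (t * t) + t * t * (((t * t - 1) * a + 2 * (t * b)) / (t * t)) : ℕ) : ℤ)
      = (((t * t - 1) * a + 2 * (t * b) : ℕ) : ℤ) := by rw [h]
  have hs' : ((t * t - 1 : ℕ) : ℤ) = (t : ℤ) * t - 1 := by
    have h3 : ((t * t : ℕ) : ℤ) = ((s + 1 : ℕ) : ℤ) := by rw [hs]
    have h4 : t * t - 1 = s := by omega
    rw [h4]
    push_cast at h3
    linarith
  generalize ((t * t - 1) * a + 2 * (t * b)) % (t * t) = u at h2 ⊢
  generalize ((t * t - 1) * a + 2 * (t * b)) / (t * t) = v at h2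
  rw [Nat.cast_add, Nat.cast_add, Nat.cast_mul (t * t - 1), hs'] at h2
  push_cast at h2
  refine ⟨(a : ℤ) - v, ?_⟩
  linear_combination h2

theorem eq_of_dvd_small {t a a' : ℕ} (ha : a < t) (ha' : a' < t) (h : (t : ℤ) ∣ (a : ℤ) - a') :
    a = a' := by
  have h1 : ((a : ℤ) - a') = 0 := by
    refine Int.eq_zero_of_abs_lt_dvd h ?_
    rw [abs_lt]; constructor <;> omega
  omega

theorem bet_inj {t : ℕ} (ht : 0 < t) (hodd : IsCoprime (t : ℤ) 2) {p p' : ℕ} (hp : p < t * t)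
    (hp' : p' < t * t) (h : bet t p = bet t p') : p = p' := by
  have h1 := bet_dvd ht p
  have h2 := bet_dvd ht p'
  rw [h] at h1
  have h3 := dvd_sub h2 h1
  have h4 : ((t : ℤ) * t) ∣ 2 * ((p / t : ℕ) - (p' / t : ℕ)) - t * ((p % t : ℕ) - (p' % t : ℕ)) := by
    have e : (bet t p' : ℤ) - (2 * (p' / t : ℕ) - t * (p' % t : ℕ)) -
      ((bet t p' : ℤ) - (2 * (p / t : ℕ) - t * (p % t : ℕ))) =
      2 * ((p / t : ℕ) - (p' / t : ℕ)) - t * ((p % t : ℕ) - (p' % t : ℕ)) := by ring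
    rw [← e]; exact h3
  have h5 : (t : ℤ) ∣ ((p / t : ℕ) : ℤ) - (p' / t : ℕ) := by
    have h6 : (t : ℤ) ∣ 2 * (((p / t : ℕ) : ℤ) - (p' / t : ℕ)) := by
      have h7 := (Dvd.intro _ rfl : (t : ℤ) ∣ (t : ℤ) * t).trans h4
      have h8 : (t : ℤ) ∣ t * (((p % t : ℕ) : ℤ) - (p' % t : ℕ)) := Dvd.intro _ rfl
      have := dvd_add h7 h8
      rwa [sub_add_cancel] at this
    exact hodd.dvd_of_dvd_mul_left h6
  have e1 : p / t = p' / t := by
    refine eq_of_dvd_small ?_ ?_ h5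
    · exact Nat.div_lt_of_lt_mul hp
    · exact Nat.div_lt_of_lt_mul hp'
  rw [e1, sub_self, mul_zero, zero_sub, dvd_neg] at h4
  have h9 : (t : ℤ) ∣ ((p % t : ℕ) : ℤ) - (p' % t : ℕ) :=
    Int.dvd_of_mul_dvd_mul_left (by exact_mod_cast ht.ne') h4
  have e2 : p % t = p' % t := eq_of_dvd_small (Nat.mod_lt _ ht) (Nat.mod_lt _ ht) h9
  rw [← Nat.mod_add_div p t, ← Nat.mod_add_div p' t, e1, e2]

theorem eta_inj {t : ℕ} (ht : 0 < t) (hodd : IsCoprime (t : ℤ) 2) {p p' : ℕ} (hp : p < t * t)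
    (hp' : p' < t * t) (h : eta t p = eta t p') : p = p' := by
  have h1 := eta_dvd ht p
  have h2 := eta_dvd ht p'
  rw [h] at h1
  have h3 := dvd_sub h2 h1
  have h4 : ((t : ℤ) * t) ∣ t * (2 * ((p % t : ℕ) - (p' % t : ℕ))) - ((p / t : ℕ) - (p' / t : ℕ)) := by
    have e : (eta t p' : ℤ) - (2 * (t * (p' % t : ℕ)) - (p' / t : ℕ)) -
      ((eta t p' : ℤ) - (2 * (t * (p % t : ℕ)) - (p / t : ℕ))) =
      t * (2 * ((p % t : ℕ) - (p' % t : ℕ))) - ((p / t : ℕ) - (p' / t : ℕ)) := by ring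
    rw [← e]; exact h3
  have h5 : (t : ℤ) ∣ ((p / t : ℕ) : ℤ) - (p' / t : ℕ) := by
    have h7 := (Dvd.intro _ rfl : (t : ℤ) ∣ (t : ℤ) * t).trans h4
    have h8 : (t : ℤ) ∣ t * (2 * (((p % t : ℕ) : ℤ) - (p' % t : ℕ))) := Dvd.intro _ rfl
    have := dvd_sub h8 h7
    rwa [sub_sub_cancel] at this
  have e1 : p / t = p' / t := by
    refine eq_of_dvd_small ?_ ?_ h5
    · exact Nat.div_lt_of_lt_mul hp
    · exact Nat.div_lt_of_lt_mul hp'
  rw [e1, sub_self, sub_zero] at h4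
  have h9 : (t : ℤ) ∣ 2 * (((p % t : ℕ) : ℤ) - (p' % t : ℕ)) :=
    Int.dvd_of_mul_dvd_mul_left (by exact_mod_cast ht.ne') h4
  have h10 : (t : ℤ) ∣ ((p % t : ℕ) : ℤ) - (p' % t : ℕ) := hodd.dvd_of_dvd_mul_left h9
  have e2 : p % t = p' % t := eq_of_dvd_small (Nat.mod_lt _ ht) (Nat.mod_lt _ ht) h10
  rw [← Nat.mod_add_div p t, ← Nat.mod_add_div p' t, e1, e2]

theorem lab_inj {t R : ℕ} (ht : 0 < t) (hodd : IsCoprime (t : ℤ) 2) (hR : 0 < R) {x x' : ℕ}
    (hx : x < 40 * R * (t * t)) (hx' : x' < 40 * R * (t * t)) (h : lab t R x = lab t R x') :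
    x = x' := by
  have hL : 0 < 40 * R := by omega
  have hm : 0 < t * t := Nat.mul_pos ht ht
  have e1 : lv R x = lv R x' := by
    have h1 : lab t R x / (t * t) = lv R x := by
      unfold lab
      rw [Nat.mul_add_div hm, Nat.div_eq_of_lt (res_lt ht R x), add_zero]
    have h2 : lab t R x' / (t * t) = lv R x' := by
      unfold lab
      rw [Nat.mul_add_div hm, Nat.div_eq_of_lt (res_lt ht R x'), add_zero]
    rw [← h1, ← h2, h]
  have e2 : res t R x = res t R x' := by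
    unfold lab at h
    rw [e1] at h
    omega
  have p1 : x / (40 * R) < t * t := by
    rw [Nat.div_lt_iff_lt_mul hL, Nat.mul_comm (t * t)]; exact hx
  have p2 : x' / (40 * R) < t * t := by
    rw [Nat.div_lt_iff_lt_mul hL, Nat.mul_comm (t * t)]; exact hx'
  have q1 : x % (40 * R) < 40 * R := Nat.mod_lt _ hL
  have q2 : x' % (40 * R) < 40 * R := Nat.mod_lt _ hL
  have r1 : (x % (40 * R)) % 2 = x % 2 := by
    rw [show 40 * R = 2 * (20 * R) by ring, Nat.mod_mul_right_mod]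
  have r2 : (x' % (40 * R)) % 2 = x' % 2 := by
    rw [show 40 * R = 2 * (20 * R) by ring, Nat.mod_mul_right_mod]
  by_cases hp : x % 2 = 0
  · have hp' : x' % 2 = 0 := by
      by_contra hc
      have a1 := lv_even hR hp
      have a2 := lv_odd hR hc
      omega
    unfold lv at e1
    rw [if_pos hp, if_pos hp'] at e1
    unfold res at e2
    rw [if_pos hp, if_pos hp'] at e2
    have e3 := XN_inj e1
    have e4 := bet_inj ht hodd p1 p2 e2
    have e5 : x % (40 * R) = x' % (40 * R) := by omega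
    rw [← Nat.mod_add_div x (40 * R), ← Nat.mod_add_div x' (40 * R), e4, e5]
  · have hp' : ¬ x' % 2 = 0 := by
      intro hc
      have a1 := lv_even hR hc
      have a2 := lv_odd hR hp
      omega
    unfold lv at e1
    rw [if_neg hp, if_neg hp'] at e1
    unfold res at e2
    rw [if_neg hp, if_neg hp'] at e2
    have a1 := YN_lt (R := R) (q := (x % (40 * R)) / 2) (by omega)
    have a2 := YN_lt (R := R) (q := (x' % (40 * R)) / 2) (by omega)
    have e3 := YN_inj (q := (x % (40 * R)) / 2) (q' := (x' % (40 * R)) / 2) (by omega)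
    have e4 := eta_inj ht hodd p1 p2 e2
    have e5 : x % (40 * R) = x' % (40 * R) := by omega
    rw [← Nat.mod_add_div x (40 * R), ← Nat.mod_add_div x' (40 * R), e4, e5]

end Pool.Agent.H82.Grace
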