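import Mathlib

/-!
The local obstruction: a finite search showing that a pure ladder between two different arcs
contains two triangles of equal weight.
-/

set_option autoImplicit false

namespace Pool.Agent.H82.Grace

/-- swap 0 and 1 modulo 10 -/
def XZ (q : ℤ) : ℤ := if q % 10 = 0 then q + 1 else if q % 10 = 1 then q - 1 else q

/-- swap 2 and 3 modulo 10 -/
def YZ (q : ℤ) : ℤ := if q % 10 = 2 then q + 1 else if q % 10 = 3 then q - 1 else q

/-- the signed level of a position -/
def uZ (y : ℤ) : ℤ := if y % 2 = 0 then XZ (y / 2) else - YZ (y / 2)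

theorem uZ_shift (y m : ℤ) : uZ (y + 20 * m) = if y % 2 = 0 then uZ y + 10 * m else uZ y - 10 * m := by
  unfold uZ XZ YZ
  have h1 : (y + 20 * m) % 2 = y % 2 := by omega
  have h2 : (y + 20 * m) / 2 = y / 2 + 10 * m := by omega
  have h3 : (y / 2 + 10 * m) % 10 = (y / 2) % 10 := by omega
  rw [h1, h2, h3]
  split_ifs <;> omega

def XN (q : ℕ) : ℕ :=
  match Nat.beq (q % 10) 0 with
  | true => q + 1
  | false =>
    match Nat.beq (q % 10) 1 with
    | true => q - 1
    | false => q

def YN (q : ℕ) : ℕ :=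
  match Nat.beq (q % 10) 2 with
  | true => q + 1
  | false =>
    match Nat.beq (q % 10) 3 with
    | true => q - 1
    | false => q

/-- the level used by the search: shifted by 64 at odd positions -/
def vN (y : ℕ) : ℕ :=
  match Nat.beq (y % 2) 0 with
  | true => XN (y / 2)
  | false => 64 - YN (y / 2)

theorem XN_eq (q : ℕ) : (XN q : ℤ) = XZ q := by
  unfold XN XZ
  by_cases h0 : q % 10 = 0
  · have : Nat.beq (q % 10) 0 = true := by rw [h0]; rfl
    rw [this]
    have h0' : (q : ℤ) % 10 = 0 := by omega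
    simp [h0']
  · have h0b : Nat.beq (q % 10) 0 = false := by
      rw [Bool.eq_false_iff]; intro h; exact h0 (Nat.eq_of_beq_eq_true h)
    have h0' : ¬ (q : ℤ) % 10 = 0 := by omega
    rw [h0b, if_neg h0']
    by_cases h1 : q % 10 = 1
    · have : Nat.beq (q % 10) 1 = true := by rw [h1]; rfl
      have h1' : (q : ℤ) % 10 = 1 := by omega
      simp only [this]
      rw [if_pos h1']
      omega
    · have h1b : Nat.beq (q % 10) 1 = false := by
        rw [Bool.eq_false_iff]; intro h; exact h1 (Nat.eq_of_beq_eq_true h)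
      have h1' : ¬ (q : ℤ) % 10 = 1 := by omega
      simp only [h1b]
      rw [if_neg h1']

theorem YN_eq (q : ℕ) : (YN q : ℤ) = YZ q := by
  unfold YN YZ
  by_cases h0 : q % 10 = 2
  · have : Nat.beq (q % 10) 2 = true := by rw [h0]; rfl
    rw [this]
    have h0' : (q : ℤ) % 10 = 2 := by omega
    simp [h0']
  · have h0b : Nat.beq (q % 10) 2 = false := by
      rw [Bool.eq_false_iff]; intro h; exact h0 (Nat.eq_of_beq_eq_true h)
    have h0' : ¬ (q : ℤ) % 10 = 2 := by omega
    rw [h0b, if_neg h0']
    by_cases h1 : q % 10 = 3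
    · have : Nat.beq (q % 10) 3 = true := by rw [h1]; rfl
      have h1' : (q : ℤ) % 10 = 3 := by omega
      simp only [this]
      rw [if_pos h1']
      omega
    · have h1b : Nat.beq (q % 10) 3 = false := by
        rw [Bool.eq_false_iff]; intro h; exact h1 (Nat.eq_of_beq_eq_true h)
      have h1' : ¬ (q : ℤ) % 10 = 3 := by omega
      simp only [h1b]
      rw [if_neg h1']

theorem YZ_le (q : ℤ) : YZ q ≤ q + 1 := by
  unfold YZ; split_ifs <;> omega

theorem vN_eq (y : ℕ) (hy : y < 124) : (vN y : ℤ) = if (y : ℤ) % 2 = 0 then uZ y else uZ y + 64 := by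
  unfold vN uZ
  by_cases h : y % 2 = 0
  · have hb : Nat.beq (y % 2) 0 = true := by rw [h]; rfl
    have h' : (y : ℤ) % 2 = 0 := by omega
    rw [hb, if_pos h', if_pos h']
    simp only []
    rw [XN_eq]
    norm_num
  · have hb : Nat.beq (y % 2) 0 = false := by
      rw [Bool.eq_false_iff]; intro h1; exact h (Nat.eq_of_beq_eq_true h1)
    have h' : ¬ (y : ℤ) % 2 = 0 := by omega
    rw [hb, if_neg h', if_neg h']
    simp only []
    have h2 := YN_eq (y / 2)
    have h3 := YZ_le ((y / 2 : ℕ) : ℤ)
    have h4 : ((y / 2 : ℕ) : ℤ) = (y : ℤ) / 2 := by norm_num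
    rw [h4] at h2 h3
    omega

/-- bit test -/
def tb (m l : ℕ) : Bool := Nat.beq ((m >>> l) % 2) 1

theorem tb_eq (m l : ℕ) : tb m l = m.testBit l := by
  unfold tb
  rw [Nat.testBit_eq_decide_div_mod_eq, Nat.shiftRight_eq_div_pow]
  by_cases h : m / 2 ^ l % 2 = 1
  · rw [h]; rfl
  · rw [Bool.eq_iff_iff]
    constructor
    · intro h1; exact absurd (Nat.eq_of_beq_eq_true h1) h
    · intro h1; exact absurd (by simpa using h1) h

theorem tb_or (m l l' : ℕ) (h : l' ≠ l) : tb (m ||| (1 <<< l)) l' = tb m l' := by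
  rw [tb_eq, tb_eq, Nat.testBit_or]
  have : (1 <<< l).testBit l' = false := by
    rw [Nat.shiftLeft_eq, one_mul, Nat.testBit_two_pow]
    simpa using fun h1 => h h1.symm
  rw [this, Bool.or_false]

def keyH (i j : ℕ) : ℕ := 2 * (vN i + vN (i + 1) + vN j) + j % 2
def keyV (e i : ℕ) : ℕ := 2 * (vN e + vN (e + 1) + vN i) + i % 2

/-- the search: true if no ladder starting at (i, j) can make r more steps on the left side -/
def dead (fuel : ℕ) : ℕ → ℕ → ℕ → ℕ → ℕ → Bool :=
  Nat.rec (motive := fun _ => ℕ → ℕ → ℕ → ℕ → ℕ → Bool) (fun _ _ _ _ _ => false)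
    (fun _ ih r i j mH mV =>
      match Nat.beq r 0 with
      | true => false
      | false =>
        match Nat.beq j 0 with
        | true => false
        | false =>
          and (or (tb mH (keyH i j)) (ih (r - 1) (i + 1) j (mH ||| (1 <<< (keyH i j))) mV))
            (or (tb mV (keyV (j - 1) i)) (ih r i (j - 1) mH (mV ||| (1 <<< (keyV (j - 1) i))))))
    fuel

theorem dead_succ (fuel r i j mH mV : ℕ) (h : dead (fuel + 1) r i j mH mV = true) :
    r ≠ 0 ∧ j ≠ 0 ∧
    (tb mH (keyH i j) = true ∨ dead fuel (r - 1) (i + 1) j (mH ||| (1 <<< (keyH i j))) mV = true) ∧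
    (tb mV (keyV (j - 1) i) = true ∨
      dead fuel r i (j - 1) mH (mV ||| (1 <<< (keyV (j - 1) i))) = true) := by
  have hr : r ≠ 0 := by
    rintro rfl
    have h0 : dead (fuel + 1) 0 i j mH mV = false := rfl
    rw [h0] at h
    cases h
  have hj : j ≠ 0 := by
    rintro rfl
    obtain ⟨r', rfl⟩ := Nat.exists_eq_succ_of_ne_zero hr
    have h0 : dead (fuel + 1) (r' + 1) i 0 mH mV = false := rfl
    rw [h0] at h
    cases h
  refine ⟨hr, hj, ?_⟩
  obtain ⟨r', rfl⟩ := Nat.exists_eq_succ_of_ne_zero hr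
  obtain ⟨j', rfl⟩ := Nat.exists_eq_succ_of_ne_zero hj
  change and (or (tb mH (keyH i (j' + 1))) (dead fuel (r' + 1 - 1) (i + 1) (j' + 1) (mH ||| (1 <<< (keyH i (j' + 1)))) mV))
            (or (tb mV (keyV (j' + 1 - 1) i)) (dead fuel (r' + 1) i (j' + 1 - 1) mH (mV ||| (1 <<< (keyV (j' + 1 - 1) i))))) = true at h
  rw [Bool.and_eq_true, Bool.or_eq_true, Bool.or_eq_true] at h
  exact h

/-- soundness of the search -/
theorem dead_sound : ∀ (fuel r i j mH mV : ℕ) (F : ℕ → ℤ),
    dead fuel r i j mH mV = true →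
    F 0 = j →
    (∀ k, k < r → F (k + 1) ≤ F k) →
    (∀ k, k < r → ∀ n : ℕ, F (k + 1) = n → tb mH (keyH (i + k) n) = false) →
    (∀ k k', k < k' → k' < r → ∀ n n' : ℕ, F (k + 1) = n → F (k' + 1) = n' →
      keyH (i + k) n ≠ keyH (i + k') n') →
    (∀ k, k < r → ∀ e : ℕ, F (k + 1) ≤ e → (e : ℤ) < F k → tb mV (keyV e (i + k)) = false) →
    (∀ k k', k < r → k' < r → ∀ e e' : ℕ, F (k + 1) ≤ e → (e : ℤ) < F k →
      F (k' + 1) ≤ e' → (e' : ℤ) < F k' → (k, e) ≠ (k', e') →
      keyV e (i + k) ≠ keyV e' (i + k')) → False := by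
  intro fuel
  induction fuel with
  | zero =>
    intro r i j mH mV F h
    have h0 : dead 0 r i j mH mV = false := rfl
    rw [h0] at h
    cases h
  | succ fuel ih =>
    intro r i j mH mV F h hF0 hmono hHa hHd hVa hVd
    obtain ⟨hr, hj, h1, h2⟩ := dead_succ fuel r i j mH mV h
    have hr0 : 0 < r := Nat.pos_of_ne_zero hr
    by_cases hF1 : F 1 = j
    · -- the next step is on the left side
      have hk : tb mH (keyH i j) = false := by
        have := hHa 0 hr0 j (by simpa using hF1)
        simpa using this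
      rw [hk] at h1
      have h1' := h1.resolve_left (by decide)
      refine ih (r - 1) (i + 1) j _ mV (fun k => F (k + 1)) h1' (by simpa using hF1) ?_ ?_ ?_ ?_ ?_
      · intro k hk; exact hmono (k + 1) (by omega)
      · intro k hk' n hn
        have hne : keyH (i + 1 + k) n ≠ keyH i j := by
          have := hHd 0 (k + 1) (by omega) (by omega) j n (by simpa using hF1) (by simpa using hn)
          intro h3
          apply this
          rw [show i + (k + 1) = i + 1 + k by omega, Nat.add_zero]
          exact h3.symm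
        rw [tb_or _ _ _ hne]
        have := hHa (k + 1) (by omega) n (by simpa using hn)
        rw [show i + 1 + k = i + (k + 1) by omega]
        exact this
      · intro k k' hkk hk' n n' hn hn'
        have := hHd (k + 1) (k' + 1) (by omega) (by omega) n n' (by simpa using hn) (by simpa using hn')
        rw [show i + 1 + k = i + (k + 1) by omega, show i + 1 + k' = i + (k' + 1) by omega]
        exact this
      · intro k hk' e he1 he2
        have := hVa (k + 1) (by omega) e he1 he2
        rw [show i + 1 + k = i + (k + 1) by omega]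
        exact this
      · intro k k' hk1 hk2 e e' he1 he2 he3 he4 hne
        have := hVd (k + 1) (k' + 1) (by omega) (by omega) e e' he1 he2 he3 he4
          (by intro h3; apply hne; simp only [Prod.mk.injEq] at h3 ⊢; omega)
        rw [show i + 1 + k = i + (k + 1) by omega, show i + 1 + k' = i + (k' + 1) by omega]
        exact this
    · -- the next step is on the right side
      have hF1' : F 1 < j := by
        have := hmono 0 hr0
        rw [hF0] at this
        simp only [Nat.zero_add] at this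
        omega
      have hj1 : ((j - 1 : ℕ) : ℤ) = (j : ℤ) - 1 := by omega
      have hk : tb mV (keyV (j - 1) i) = false := by
        have := hVa 0 hr0 (j - 1) (by simp only [Nat.zero_add]; omega) (by rw [hF0]; omega)
        simpa using this
      rw [hk] at h2
      have h2' := h2.resolve_left (by decide)
      refine ih r i (j - 1) mH _ (fun k => if k = 0 then ((j - 1 : ℕ) : ℤ) else F k) h2' (by simp)
        ?_ ?_ ?_ ?_ ?_
      · intro k hk
        by_cases h0 : k = 0
        · subst h0; simp; omega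
        · simp only [h0, if_false, Nat.succ_ne_zero, if_false]
          exact hmono k hk
      · intro k hk' n hn
        exact hHa k hk' n (by simpa using hn)
      · intro k k' hkk hk' n n' hn hn'
        exact hHd k k' hkk hk' n n' (by simpa using hn) (by simpa using hn')
      · intro k hk' e he1 he2
        simp only [Nat.succ_ne_zero, if_false] at he1
        have he2' : (e : ℤ) < F k := by
          by_cases h0 : k = 0
          · subst h0; simp at he2; rw [hF0]; omega
          · simpa [h0] using he2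
        have hne : keyV e (i + k) ≠ keyV (j - 1) i := by
          have := hVd k 0 hk' hr0 e (j - 1) he1 he2' (by simp only [Nat.zero_add]; omega)
            (by rw [hF0]; omega)
            (by
              intro h3
              simp only [Prod.mk.injEq] at h3
              obtain ⟨h4, h5⟩ := h3
              subst h4
              simp at he2
              omega)
          simpa using this
        rw [tb_or _ _ _ hne]
        exact hVa k hk' e he1 he2'
      · intro k k' hk1 hk2 e e' he1 he2 he3 he4 hne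
        simp only [Nat.succ_ne_zero, if_false] at he1 he3
        have he2' : (e : ℤ) < F k := by
          by_cases h0 : k = 0
          · subst h0; simp at he2; rw [hF0]; omega
          · simpa [h0] using he2
        have he4' : (e' : ℤ) < F k' := by
          by_cases h0 : k' = 0
          · subst h0; simp at he4; rw [hF0]; omega
          · simpa [h0] using he4
        exact hVd k k' hk1 hk2 e e' he1 he2' he3 he4' hne

/-- the finite search: from (9, b) with b = 100, ..., 119, after the first step on the left -/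
theorem search : ∀ c : Fin 20, dead 80 26 10 (100 + c) (1 <<< (keyH 9 (100 + c))) 0 = true := by
  decide +kernel

theorem lev_eq (i n : ℕ) (x y a c : ℤ) (hi : i + 1 < 124) (hn : n < 124) (hx : x = i + 20 * a)
    (hy : y = n + 20 * c) :
    ((vN i + vN (i + 1) + vN n : ℕ) : ℤ) =
      uZ x + uZ (x + 1) + uZ y + 64 + (if (n : ℤ) % 2 = 0 then - 10 * c else 64 + 10 * c) := by
  have e1 := vN_eq i (by omega)
  have e2 := vN_eq (i + 1) hi
  have e3 := vN_eq n hn
  have s1 := uZ_shift i a
  have s2 := uZ_shift ((i + 1 : ℕ) : ℤ) a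
  have s3 := uZ_shift n c
  have hx1 : x + 1 = ((i + 1 : ℕ) : ℤ) + 20 * a := by push_cast; omega
  rw [hx1, hx, hy, s1, s2, s3]
  push_cast at e1 e2 e3 ⊢
  rw [e1, e2, e3]
  by_cases hi2 : (i : ℤ) % 2 = 0
  · have hi3 : ¬ ((i : ℤ) + 1) % 2 = 0 := by omega
    rw [if_pos hi2, if_neg hi3, if_pos hi2, if_neg hi3]
    by_cases hn2 : (n : ℤ) % 2 = 0
    · rw [if_pos hn2, if_pos hn2, if_pos hn2]; ring
    · rw [if_neg hn2, if_neg hn2, if_neg hn2]; ring
  · have hi3 : ((i : ℤ) + 1) % 2 = 0 := by omega
    rw [if_neg hi2, if_pos hi3, if_neg hi2, if_pos hi3]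
    by_cases hn2 : (n : ℤ) % 2 = 0
    · rw [if_pos hn2, if_pos hn2, if_pos hn2]; ring
    · rw [if_neg hn2, if_neg hn2, if_neg hn2]; ring

/-- equal keys give equal levels -/
theorem key_imp (i n i' n' : ℕ) (x y x' y' a c : ℤ) (hi : i + 1 < 124) (hn : n < 124)
    (hi' : i' + 1 < 124) (hn' : n' < 124) (hx : x = i + 20 * a) (hy : y = n + 20 * c)
    (hx' : x' = i' + 20 * a) (hy' : y' = n' + 20 * c)
    (h : 2 * (vN i + vN (i + 1) + vN n) + n % 2 = 2 * (vN i' + vN (i' + 1) + vN n') + n' % 2) :
    n % 2 = n' % 2 ∧ uZ x + uZ (x + 1) + uZ y = uZ x' + uZ (x' + 1) + uZ y' := by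
  have h1 : n % 2 = n' % 2 := by omega
  have h2 : vN i + vN (i + 1) + vN n = vN i' + vN (i' + 1) + vN n' := by omega
  have e1 := lev_eq i n x y a c hi hn hx hy
  have e2 := lev_eq i' n' x' y' a c hi' hn' hx' hy'
  rw [h2, e2] at e1
  refine ⟨h1, ?_⟩
  by_cases hp : (n : ℤ) % 2 = 0
  · have hp' : (n' : ℤ) % 2 = 0 := by omega
    rw [if_pos hp, if_pos hp'] at e1
    linarith
  · have hp' : ¬ (n' : ℤ) % 2 = 0 := by omega
    rw [if_neg hp, if_neg hp'] at e1
    linarith

/-- The local obstruction: a ladder with 27 steps on the left side contains two steps of the same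
kind and the same level. -/
theorem local_obstruction (x0 : ℕ) (hx0 : x0 % 20 = 9) (f : ℕ → ℕ)
    (hmono : ∀ k, k < 26 → f (k + 1) ≤ f k)
    (hH : ∀ k k', k < k' → k' < 27 → f k % 2 = f k' % 2 →
      uZ ((x0 + k : ℕ) : ℤ) + uZ (((x0 + k : ℕ) : ℤ) + 1) + uZ (f k) ≠
      uZ ((x0 + k' : ℕ) : ℤ) + uZ (((x0 + k' : ℕ) : ℤ) + 1) + uZ (f k'))
    (hV : ∀ k k', k < 26 → k' < 26 → ∀ e e' : ℕ, f (k + 1) ≤ e → e < f k →
      f (k' + 1) ≤ e' → e' < f k' → (k, e) ≠ (k', e') → (x0 + k + 1) % 2 = (x0 + k' + 1) % 2 →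
      uZ e + uZ ((e : ℤ) + 1) + uZ ((x0 + k + 1 : ℕ) : ℤ) ≠
      uZ e' + uZ ((e' : ℤ) + 1) + uZ ((x0 + k' + 1 : ℕ) : ℤ)) : False := by
  obtain ⟨a, ha⟩ : ∃ a : ℤ, (x0 : ℤ) = 9 + 20 * a := ⟨(x0 : ℤ) / 20, by omega⟩
  set b0 : ℕ := 100 + f 0 % 20 with hb0
  obtain ⟨c, hc⟩ : ∃ c : ℤ, (f 0 : ℤ) = b0 + 20 * c := ⟨(f 0 : ℤ) / 20 - 5, by omega⟩
  have hs := search ⟨f 0 % 20, Nat.mod_lt _ (by norm_num)⟩
  have hfle : ∀ k, k < 27 → f k ≤ f 0 := by
    intro k
    induction k with
    | zero => intro _; exact le_refl _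
    | succ k ih => intro hk; exact (hmono k (by omega)).trans (ih (by omega))
  refine dead_sound 80 26 10 (100 + f 0 % 20) _ 0 (fun k => (f k : ℤ) - 20 * c) hs ?_ ?_ ?_ ?_ ?_ ?_
  · omega
  · intro k hk
    have := hmono k hk
    omega
  · intro k hk n hn
    have hle := hfle (k + 1) (by omega)
    have hne : keyH (10 + k) n ≠ keyH 9 (100 + f 0 % 20) := by
      intro h
      unfold keyH at h
      have := key_imp (10 + k) n 9 (100 + f 0 % 20) ((x0 + (k + 1) : ℕ) : ℤ) (f (k + 1)) ((x0 + 0 : ℕ) : ℤ) (f 0) a c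
        (by omega) (by omega) (by omega) (by omega) (by push_cast; omega) (by omega) (by push_cast; omega)
        (by omega) h
      refine hH 0 (k + 1) (by omega) (by omega) ?_ this.2.symm
      have := this.1
      omega
    have h1 := tb_or 0 (keyH 9 (100 + f 0 % 20)) (keyH (10 + k) n) hne
    rw [Nat.zero_or] at h1
    rw [h1, tb_eq, Nat.zero_testBit]
  · intro k k' hkk hk' n n' hn hn' h
    have hle := hfle (k + 1) (by omega)
    have hle' := hfle (k' + 1) (by omega)
    unfold keyH at h
    have := key_imp (10 + k) n (10 + k') n' ((x0 + (k + 1) : ℕ) : ℤ) (f (k + 1))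
      ((x0 + (k' + 1) : ℕ) : ℤ) (f (k' + 1)) a c
      (by omega) (by omega) (by omega) (by omega) (by push_cast; omega) (by omega) (by push_cast; omega)
      (by omega) h
    refine hH (k + 1) (k' + 1) (by omega) (by omega) ?_ this.2
    have := this.1
    omega
  · intro k hk e he1 he2
    rw [tb_eq, Nat.zero_testBit]
  · intro k k' hk hk' e e' he1 he2 he3 he4 hne h
    have hle := hfle k (by omega)
    have hle' := hfle k' (by omega)
    unfold keyV at h
    obtain ⟨E, hE⟩ : ∃ E : ℕ, (E : ℤ) = e + 20 * c :=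
      ⟨((e : ℤ) + 20 * c).toNat, by omega⟩
    obtain ⟨E', hE'⟩ : ∃ E' : ℕ, (E' : ℤ) = e' + 20 * c :=
      ⟨((e' : ℤ) + 20 * c).toNat, by omega⟩
    have := key_imp e (10 + k) e' (10 + k') E ((x0 + k + 1 : ℕ) : ℤ) E' ((x0 + k' + 1 : ℕ) : ℤ) c a
      (by omega) (by omega) (by omega) (by omega) (by omega) (by push_cast; omega) (by omega)
      (by push_cast; omega) h
    refine hV k k' hk hk' E E' (by omega) (by omega) (by omega) (by omega) ?_ ?_ this.2
    · intro h1
      apply hne
      simp only [Prod.mk.injEq] at h1 ⊢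
      omega
    · have := this.1
      omega

end Pool.Agent.H82.Grace
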